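import Mathlib

/-!
# Sections of quasi-coherent modules over affine opens
-/

universe u

open CategoryTheory Limits AlgebraicGeometry TopologicalSpace Opposite

attribute [-instance] CategoryTheory.catToReflQuiver

namespace Fdim.Coh

noncomputable section

variable {X : Scheme.{u}} {W : X.Opens} (hW : IsAffineOpen W)

lemma image_le (V : (Spec Γ(X, W)).Opens) : hW.fromSpec ''ᵁ V ≤ W := by
  conv_rhs => rw [← hW.opensRange_fromSpec]
  exact Scheme.Hom.image_le_opensRange _ _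

lemma image_top : hW.fromSpec ''ᵁ ⊤ = W := by
  rw [Scheme.Hom.image_top_eq_opensRange, hW.opensRange_fromSpec]

lemma scal (V : (Spec Γ(X, W)).Opens) :
    (Scheme.ΓSpecIso Γ(X, W)).inv ≫ (Spec Γ(X, W)).presheaf.map V.leTop.op ≫
      (hW.fromSpec.appIso V).inv = X.presheaf.map (homOfLE (image_le hW V)).op := by
  have hV : V ≤ hW.fromSpec ⁻¹ᵁ W := by
    rw [hW.fromSpec_preimage_self]; exact le_top
  rw [← Scheme.Hom.appLE_appIso_inv hW.fromSpec hV, Scheme.Hom.appLE, hW.fromSpec_app_self]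
  simp only [Category.assoc]
  rw [← Functor.map_comp_assoc]
  rfl

/-- the sections of the restriction to the affine open -/
def eqv (M : X.Modules) (V : (Spec Γ(X, W)).Opens) {V' : X.Opens} (h : hW.fromSpec ''ᵁ V = V') :
    Γ(M.restrict hW.fromSpec, V) ≅ Γ(M, V') :=
  M.restrictAppIso hW.fromSpec V ≪≫ M.presheaf.mapIso (eqToIso h.symm).op

lemma eqv_map (M : X.Modules) {V₁ V₂ : (Spec Γ(X, W)).Opens} {V₁' V₂' : X.Opens}
    (h₁ : hW.fromSpec ''ᵁ V₁ = V₁') (h₂ : hW.fromSpec ''ᵁ V₂ = V₂') (i : V₁ ⟶ V₂) (j : V₁' ⟶ V₂')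
    (s : Γ(M.restrict hW.fromSpec, V₂)) :
    (eqv hW M V₁ h₁).hom ((M.restrict hW.fromSpec).presheaf.map i.op s) =
      M.presheaf.map j.op ((eqv hW M V₂ h₂).hom s) := by
  subst h₁ h₂
  change M.presheaf.map (𝟙 _) (M.presheaf.map (hW.fromSpec.opensFunctor.map i).op s)
    = M.presheaf.map j.op (M.presheaf.map (𝟙 _) s)
  rw [CategoryTheory.Functor.map_id, CategoryTheory.Functor.map_id]
  rfl

lemma restrictAppIso_smul_aux (M : X.Modules) (V : (Spec Γ(X, W)).Opens) (r : Γ(X, W))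
    (s : Γ(M.restrict hW.fromSpec, V)) :
    (M.restrictAppIso hW.fromSpec V).hom (r • s)
      = X.presheaf.map (homOfLE (image_le hW V)).op r • (M.restrictAppIso hW.fromSpec V).hom s := by
  rw [Scheme.Modules.smul_Spec_def]
  have h := scal hW V
  rw [← h]
  rfl

lemma eqv_rfl (M : X.Modules) (V : (Spec Γ(X, W)).Opens)
    (s : Γ(M.restrict hW.fromSpec, V)) :
    (eqv hW M V rfl).hom s = (M.restrictAppIso hW.fromSpec V).hom s := by
  change M.presheaf.map (𝟙 _) s = s
  rw [CategoryTheory.Functor.map_id]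
  rfl

lemma eqv_smul (M : X.Modules) {V : (Spec Γ(X, W)).Opens} {V' : X.Opens}
    (h : hW.fromSpec ''ᵁ V = V') (j : V' ⟶ W) (r : Γ(X, W)) (s : Γ(M.restrict hW.fromSpec, V)) :
    (eqv hW M V h).hom (r • s) = X.presheaf.map j.op r • (eqv hW M V h).hom s := by
  subst h
  rw [eqv_rfl, eqv_rfl]
  exact restrictAppIso_smul_aux hW M V r s

lemma isLocalizing_restrict (M : X.Modules) [M.IsQuasicoherent] (g : Γ(X, W)) :
    IsLocalizedModule (.powers g) ((modulesSpecToSheaf.obj (M.restrict hW.fromSpec)).obj.map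
      (PrimeSpectrum.basicOpen g).leTop.op).hom := by
  have h : IsIso (M.restrict hW.fromSpec).fromTildeΓ := inferInstance
  rw [isIso_fromTildeΓ_iff_isLocalizing] at h
  exact h g

/-- the basic open set of the spectrum -/
abbrev bo (g : Γ(X, W)) : (Spec Γ(X, W)).Opens := PrimeSpectrum.basicOpen g

lemma image_bo (g : Γ(X, W)) : hW.fromSpec ''ᵁ bo g = X.basicOpen g :=
  hW.fromSpec_image_basicOpen g

lemma loc_surj (M : X.Modules) [M.IsQuasicoherent] (g : Γ(X, W))
    (s : Γ(M.restrict hW.fromSpec, bo g)) : ∃ (n : ℕ) (t : Γ(M.restrict hW.fromSpec, ⊤)),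
      (M.restrict hW.fromSpec).presheaf.map (homOfLE le_top : bo g ⟶ ⊤).op t = g ^ n • s := by
  have hloc := isLocalizing_restrict hW M g
  obtain ⟨⟨t, ⟨_, n, rfl⟩⟩, ht⟩ := hloc.surj s
  exact ⟨n, t, ht.symm⟩

lemma loc_zero (M : X.Modules) [M.IsQuasicoherent] (g : Γ(X, W))
    (t : Γ(M.restrict hW.fromSpec, ⊤))
    (ht : (M.restrict hW.fromSpec).presheaf.map (homOfLE le_top : bo g ⟶ ⊤).op t = 0) :
    ∃ n : ℕ, g ^ n • t = 0 := by
  have hloc := isLocalizing_restrict hW M g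
  have ht' : ((modulesSpecToSheaf.obj (M.restrict hW.fromSpec)).obj.map
      (PrimeSpectrum.basicOpen g).leTop.op).hom t = ((modulesSpecToSheaf.obj
      (M.restrict hW.fromSpec)).obj.map (PrimeSpectrum.basicOpen g).leTop.op).hom 0 := by
    rw [map_zero]
    exact ht
  obtain ⟨⟨_, n, rfl⟩, hn⟩ := hloc.exists_of_eq ht'
  refine ⟨n, ?_⟩
  rw [smul_zero] at hn
  exact hn

include hW in
/-- a section over `D(g)` extends to the affine open after multiplication by a power of `g` -/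
lemma qc_exists (M : X.Modules) [M.IsQuasicoherent] (g : Γ(X, W)) (s : Γ(M, X.basicOpen g)) :
    ∃ (n : ℕ) (t : Γ(M, W)), M.presheaf.map (homOfLE (X.basicOpen_le g)).op t
      = X.presheaf.map (homOfLE (X.basicOpen_le g)).op g ^ n • s := by
  obtain ⟨n, t, ht⟩ := loc_surj hW M g ((eqv hW M _ (image_bo hW g)).inv s)
  refine ⟨n, (eqv hW M ⊤ (image_top hW)).hom t, ?_⟩
  have h1 := eqv_map hW M (image_bo hW g) (image_top hW)
    (homOfLE le_top) (homOfLE (X.basicOpen_le g)) t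
  rw [← h1, ht, eqv_smul hW M (image_bo hW g) (homOfLE (X.basicOpen_le g)), Iso.inv_hom_id_apply,
    map_pow]

include hW in
/-- a section which vanishes on `D(g)` is killed by a power of `g` -/
lemma qc_unique (M : X.Modules) [M.IsQuasicoherent] (g : Γ(X, W)) (t : Γ(M, W))
    (h : M.presheaf.map (homOfLE (X.basicOpen_le g)).op t = 0) : ∃ n : ℕ, g ^ n • t = 0 := by
  have h1 := eqv_map hW M (image_bo hW g) (image_top hW)
    (homOfLE le_top) (homOfLE (X.basicOpen_le g))
    ((eqv hW M ⊤ (image_top hW)).inv t)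
  rw [Iso.inv_hom_id_apply, h] at h1
  have h2 : (M.restrict hW.fromSpec).presheaf.map (homOfLE le_top : bo g ⟶ ⊤).op
    ((eqv hW M ⊤ (image_top hW)).inv t) = 0 := by
    have := congrArg (eqv hW M _ (image_bo hW g)).inv h1
    rwa [Iso.hom_inv_id_apply, map_zero] at this
  obtain ⟨n, hn⟩ := loc_zero hW M g _ h2
  refine ⟨n, ?_⟩
  have h3 := congrArg (eqv hW M ⊤ (image_top hW)).hom hn
  rw [eqv_smul hW M (image_top hW) (𝟙 W), Iso.inv_hom_id_apply, map_zero] at h3
  rw [op_id, CategoryTheory.Functor.map_id] at h3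
  exact h3

end

end Fdim.Coh
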