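import Pool.Agent.Work.MP_f714fc_ag.Coh.MV
import Pool.Agent.Work.MP_f714fc_ag.Tw.Sec

/-!
# Vanishing of the cohomology of quasi-coherent modules on affine opens (Serre)
-/

universe w u

open CategoryTheory Limits AlgebraicGeometry TopologicalSpace Opposite Abelian

attribute [-instance] CategoryTheory.catToReflQuiver

namespace Fdim.Coh

noncomputable section

variable {X : Scheme.{u}}

lemma rO_def {U V : X.Opens} (h : V ≤ U) (r : Γ(X, U)) :
    X.presheaf.map (homOfLE h).op r = rO h r := rfl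

lemma rs_def (M : X.Modules) {U V : X.Opens} (h : V ≤ U) (s : Γ(M, U)) :
    M.presheaf.map (homOfLE h).op s = rs M h s := rfl

/-- the inverse of `a` on `D(a)` -/
lemma exists_inv {W : X.Opens} (a : Γ(X, W)) :
    ∃ c : Γ(X, X.basicOpen a), rO (X.basicOpen_le a) a * c = 1 := by
  have h : IsUnit (rO (X.basicOpen_le a) a) := RingedSpace.isUnit_res_basicOpen _ a
  exact h.exists_right_inv

/-- surjectivity of the last map of the Cech complex of two basic open sets -/
lemma cech_surj {W : X.Opens} (hW : IsAffineOpen W) (M : X.Modules) [M.IsQuasicoherent]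
    {a b x y : Γ(X, W)} (hab : x * a + y * b = 1)
    (m : Γ(M, X.basicOpen a ⊓ X.basicOpen b)) :
    ∃ (m₁ : Γ(M, X.basicOpen a)) (m₂ : Γ(M, X.basicOpen b)),
      m = rs M inf_le_left m₁ - rs M inf_le_right m₂ := by
  have hle : X.basicOpen (a * b) = X.basicOpen a ⊓ X.basicOpen b := X.basicOpen_mul a b
  have hle2 : X.basicOpen a ⊓ X.basicOpen b ≤ W := inf_le_left.trans (X.basicOpen_le a)
  obtain ⟨n, t, ht⟩ := qc_exists hW M (a * b) (rs M hle.le m)
  have ht1 : rs M hle2 t = rO hle2 (a * b) ^ n • m := by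
    have h1 := congrArg (rs M hle.ge) ht
    have h2 : rs M hle.ge (M.presheaf.map (homOfLE (X.basicOpen_le (a * b))).op t)
      = rs M hle2 t := rs_rs M (X.basicOpen_le (a * b)) hle.ge t
    rw [h2, rs_smul, rs_rs, rs_self] at h1
    rw [h1]
    congr 1
    change rO hle.ge (rO (X.basicOpen_le (a * b)) (a * b) ^ n) = _
    rw [map_pow, rO_rO]
  have hcop : IsCoprime (a ^ n) (b ^ n) := IsCoprime.pow ⟨x, y, hab⟩
  obtain ⟨u, v, huv⟩ := hcop
  obtain ⟨c, hc⟩ := exists_inv a
  obtain ⟨d, hd⟩ := exists_inv b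
  refine ⟨(rO (X.basicOpen_le a) v * c ^ n) • rs M (X.basicOpen_le a) t,
    -((rO (X.basicOpen_le b) u * d ^ n) • rs M (X.basicOpen_le b) t), ?_⟩
  have hc' := congrArg (rO (inf_le_left : X.basicOpen a ⊓ X.basicOpen b ≤ _)) hc
  have hd' := congrArg (rO (inf_le_right : X.basicOpen a ⊓ X.basicOpen b ≤ _)) hd
  rw [map_mul, map_one, rO_rO] at hc' hd'
  have huv' := congrArg (rO hle2) huv
  rw [map_add, map_mul, map_mul, map_one, map_pow, map_pow] at huv'
  rw [map_neg, rs_smul, rs_smul, rs_rs, rs_rs, ht1, sub_neg_eq_add, smul_smul, smul_smul,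
    ← add_smul]
  conv_lhs => rw [← one_smul Γ(X, X.basicOpen a ⊓ X.basicOpen b) m]
  congr 1
  simp only [map_mul, map_pow, rO_rO]
  rw [mul_pow]
  have hcn : rO hle2 a ^ n * rO inf_le_left c ^ n = 1 := by rw [← mul_pow, hc', one_pow]
  have hdn : rO hle2 b ^ n * rO inf_le_right d ^ n = 1 := by rw [← mul_pow, hd', one_pow]
  linear_combination (-(rO hle2 v * rO hle2 b ^ n)) * hcn - (rO hle2 u * rO hle2 a ^ n) * hdn - huv'

section sec

variable [HasExt.{w} X.Modules]

lemma secEquiv_symm_apply {U : X.Opens} {M : X.Modules} (s : Γ(M, U)) :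
    (secEquiv U M).symm s = Ext.mk₀ ((zEquiv U M).symm s) := rfl

lemma secEquiv_mk₀ {U : X.Opens} {M : X.Modules} (f : (Zf X).obj U ⟶ M) :
    secEquiv U M (Ext.mk₀ f) = zEquiv U M f := by
  rw [← Equiv.eq_symm_apply, secEquiv_symm_apply, Equiv.symm_apply_apply]

lemma exists_eq_mk₀ {U : X.Opens} {M : X.Modules} (β : Ext ((Zf X).obj U) M 0) :
    ∃ f : (Zf X).obj U ⟶ M, β = Ext.mk₀ f := ⟨_, (Ext.mk₀_homEquiv₀_apply β).symm⟩

lemma secEquiv_add {U : X.Opens} {M : X.Modules} (β γ : Ext ((Zf X).obj U) M 0) :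
    secEquiv U M (β + γ) = secEquiv U M β + secEquiv U M γ := by
  obtain ⟨f, rfl⟩ := exists_eq_mk₀ β
  obtain ⟨g, rfl⟩ := exists_eq_mk₀ γ
  rw [← Ext.mk₀_add, secEquiv_mk₀, secEquiv_mk₀, secEquiv_mk₀, zEquiv_add]

lemma secEquiv_sub {U : X.Opens} {M : X.Modules} (β γ : Ext ((Zf X).obj U) M 0) :
    secEquiv U M (β - γ) = secEquiv U M β - secEquiv U M γ := by
  rw [eq_sub_iff_add_eq, ← secEquiv_add, sub_add_cancel]

lemma secEquiv_zero {U : X.Opens} {M : X.Modules} :
    secEquiv U M (0 : Ext ((Zf X).obj U) M 0) = 0 := by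
  rw [← sub_self (0 : Ext ((Zf X).obj U) M 0), secEquiv_sub, sub_self]

lemma secEquiv_res {U V : X.Opens} {M : X.Modules} (i : V ⟶ U) (β : Ext ((Zf X).obj U) M 0) :
    secEquiv V M (res i β) = M.presheaf.map i.op (secEquiv U M β) := by
  obtain ⟨f, rfl⟩ := exists_eq_mk₀ β
  rw [res, Ext.mk₀_comp_mk₀, secEquiv_mk₀, secEquiv_mk₀, zEquiv_map]

lemma secEquiv_rs {U V : X.Opens} {M : X.Modules} (h : V ≤ U) (β : Ext ((Zf X).obj U) M 0) :
    secEquiv V M (res (homOfLE h) β) = rs M h (secEquiv U M β) :=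
  secEquiv_res _ β

end sec

/-- a class on an affine open vanishes if it does on two basic open sets which cover -/
lemma glue_zero [HasExt.{w} X.Modules] (M : X.Modules) [M.IsQuasicoherent] {n : ℕ}
    (IH : ∀ (V : X.Opens), IsAffineOpen V → ∀ m, m + 1 = n →
      ∀ β : Ext ((Zf X).obj V) M (m + 1), β = 0)
    {W : X.Opens} (hW : IsAffineOpen W) {a b x y : Γ(X, W)} (hab : x * a + y * b = 1)
    (α : Ext ((Zf X).obj W) M (n + 1)) (ha : res (homOfLE (X.basicOpen_le a)) α = 0)
    (hb : res (homOfLE (X.basicOpen_le b)) α = 0) : α = 0 := by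
  have hcov : X.basicOpen a ⊔ X.basicOpen b = W := by
    apply le_antisymm (sup_le (X.basicOpen_le a) (X.basicOpen_le b))
    have h1 : X.basicOpen (x * a + y * b) = W := by rw [hab, X.basicOpen_one]
    calc W = X.basicOpen (x * a + y * b) := h1.symm
      _ ≤ X.basicOpen (x * a) ⊔ X.basicOpen (y * b) := X.basicOpen_add_le _ _
      _ ≤ X.basicOpen a ⊔ X.basicOpen b := by
        rw [X.basicOpen_mul, X.basicOpen_mul]
        exact sup_le_sup inf_le_right inf_le_right
  have h0 : res (homOfLE hcov.le) α = 0 := by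
    obtain ⟨β, hβ⟩ := mv_exact_sup (U := X.basicOpen a) (V := X.basicOpen b)
      (show 1 + n = n + 1 by omega) (res (homOfLE hcov.le) α)
      (by rw [res_res]; exact ha) (by rw [res_res]; exact hb)
    rw [← hβ]
    rcases n with _ | m
    · obtain ⟨m₁, m₂, hm⟩ := cech_surj hW M hab (secEquiv _ M β)
      have h2 : β = res (homOfLE inf_le_left) ((secEquiv _ M).symm m₁)
          - res (homOfLE inf_le_right) ((secEquiv _ M).symm m₂) := by
        apply (secEquiv _ M).injective
        rw [hm, secEquiv_sub, secEquiv_rs, secEquiv_rs, Equiv.apply_symm_apply,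
          Equiv.apply_symm_apply]
      rw [h2, bd_res]
    · have hV : IsAffineOpen (X.basicOpen a ⊓ X.basicOpen b) := by
        rw [← X.basicOpen_mul]
        exact hW.basicOpen _
      rw [IH _ hV m rfl β, bd, Ext.comp_zero]
  have h1 : res (homOfLE hcov.ge) (res (homOfLE hcov.le) α) = α := by
    rw [res_res]
    exact res_id α
  rw [← h1, h0, res_zero]

lemma serre_aux [HasExt.{w} X.Modules] (M : X.Modules) [M.IsQuasicoherent] {n : ℕ}
    (IH : ∀ (V : X.Opens), IsAffineOpen V → ∀ m, m + 1 = n →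
      ∀ β : Ext ((Zf X).obj V) M (m + 1), β = 0)
    {U : X.Opens} (hU : IsAffineOpen U) (α : Ext ((Zf X).obj U) M (n + 1)) : α = 0 := by
  let I : Ideal Γ(X, U) :=
    { carrier := {f | res (homOfLE (X.basicOpen_le f)) α = 0}
      zero_mem' := by
        change res (homOfLE (X.basicOpen_le 0)) α = 0
        obtain ⟨c, hc⟩ := exists_inv (0 : Γ(X, U))
        have h0 : (rO (X.basicOpen_le (0 : Γ(X, U))) (0 : Γ(X, U))) = 0 := map_zero _
        rw [h0, zero_mul] at hc
        have h1 : (Zf X).map (homOfLE (X.basicOpen_le (0 : Γ(X, U)))) = 0 := by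
          apply (zEquiv _ _).injective
          rw [← one_smul Γ(X, X.basicOpen (0 : Γ(X, U))) (zEquiv _ _ _), ← hc, zero_smul,
            ← one_smul Γ(X, X.basicOpen (0 : Γ(X, U))) (zEquiv _ _ 0), ← hc, zero_smul]
        rw [res, h1, Ext.mk₀_zero, Ext.zero_comp]
      add_mem' := by
        intro f g hf hg
        change res (homOfLE (X.basicOpen_le f)) α = 0 at hf
        change res (homOfLE (X.basicOpen_le g)) α = 0 at hg
        change res (homOfLE (X.basicOpen_le (f + g))) α = 0
        obtain ⟨c, hc⟩ := exists_inv (f + g)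
        have hfW : X.basicOpen (rO (X.basicOpen_le (f + g)) f) ≤ X.basicOpen f :=
          (X.basicOpen_res _ _).trans_le inf_le_right
        have hgW : X.basicOpen (rO (X.basicOpen_le (f + g)) g) ≤ X.basicOpen g :=
          (X.basicOpen_res _ _).trans_le inf_le_right
        refine glue_zero M IH (hU.basicOpen (f + g)) (a := rO (X.basicOpen_le (f + g)) f)
          (b := rO (X.basicOpen_le (f + g)) g) (x := c) (y := c) ?_ _ ?_ ?_
        · rw [← mul_add, ← map_add, mul_comm, hc]
        · rw [res_res]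
          have : (homOfLE (X.basicOpen_le (rO (X.basicOpen_le (f + g)) f))) ≫
            homOfLE (X.basicOpen_le (f + g)) = homOfLE hfW ≫ homOfLE (X.basicOpen_le f) := rfl
          rw [this, ← res_res, hf, res_zero]
        · rw [res_res]
          have : (homOfLE (X.basicOpen_le (rO (X.basicOpen_le (f + g)) g))) ≫
            homOfLE (X.basicOpen_le (f + g)) = homOfLE hgW ≫ homOfLE (X.basicOpen_le g) := rfl
          rw [this, ← res_res, hg, res_zero]
      smul_mem' := by
        intro c f hf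
        change res (homOfLE (X.basicOpen_le f)) α = 0 at hf
        change res (homOfLE (X.basicOpen_le (c * f))) α = 0
        have hle : X.basicOpen (c * f) ≤ X.basicOpen f := by
          rw [X.basicOpen_mul]; exact inf_le_right
        have : (homOfLE (X.basicOpen_le (c * f))) = homOfLE hle ≫ homOfLE (X.basicOpen_le f) := rfl
        rw [this, ← res_res, hf, res_zero] }
  have hI : Ideal.span (I : Set Γ(X, U)) = ⊤ := by
    rw [← hU.self_le_iSup_basicOpen_iff]
    intro x hx
    obtain ⟨V, i, hxV, hV⟩ := exists_res_eq_zero α hx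
    obtain ⟨f, hf, hxf⟩ := hU.exists_basicOpen_le (⟨x, hxV⟩ : V) hx
    have hfI : f ∈ I := by
      change res (homOfLE (X.basicOpen_le f)) α = 0
      have : (homOfLE (X.basicOpen_le f)) = homOfLE hf ≫ i := rfl
      rw [this, ← res_res, hV, res_zero]
    rw [Opens.mem_iSup]
    exact ⟨⟨f, hfI⟩, hxf⟩
  rw [Ideal.span_eq, Ideal.eq_top_iff_one] at hI
  change res (homOfLE (X.basicOpen_le 1)) α = 0 at hI
  have h1 : U ≤ X.basicOpen (1 : Γ(X, U)) := X.basicOpen_one.ge
  have h2 : res (homOfLE h1) (res (homOfLE (X.basicOpen_le 1)) α) = α := by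
    rw [res_res]
    exact res_id α
  rw [← h2, hI, res_zero]

/-- **Serre's vanishing theorem** for affine open subschemes -/
theorem serre_vanishing [HasExt.{w} X.Modules] (M : X.Modules) [M.IsQuasicoherent] (n : ℕ) :
    ∀ (U : X.Opens), IsAffineOpen U → ∀ α : Ext ((Zf X).obj U) M (n + 1), α = 0 := by
  induction n with
  | zero =>
    intro U hU α
    exact serre_aux M (fun V hV m hm => by omega) hU α
  | succ n IH =>
    intro U hU α
    exact serre_aux M (fun V hV m hm => by
      obtain rfl : m = n := by omega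
      exact IH V hV) hU α

end

end Fdim.Coh
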