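import Mathlib

/-!
# Effaceability of Ext classes in an arbitrary abelian category
-/

universe w v u

open CategoryTheory Limits Category Abelian

attribute [-instance] CategoryTheory.catToReflQuiver

namespace Fdim.Coh

variable {C : Type u} [Category.{v} C] [Abelian C]

open HomologicalComplex DerivedCategory

set_option backward.defeqAttrib.useBackward true in
set_option backward.isDefEq.respectTransparency false in
/-- a complex in degrees `≤ i`, quasi-isomorphic to a single object, gives an epimorphism -/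
lemma exists_epi_of_quasiIsoAt {X : C} {K : CochainComplex C ℤ} {i : ℤ}
    (π : K ⟶ (CochainComplex.singleFunctor C i).obj X) [K.IsStrictlyLE i] [QuasiIsoAt π i] :
    ∃ (P : C) (p : P ⟶ X) (_ : Epi p) (j : (CochainComplex.singleFunctor C i).obj P ⟶ K),
      j ≫ π = (CochainComplex.singleFunctor C i).map p := by
  let e := K.iCyclesIso i (i + 1) (by simp)
    ((K.isZero_of_isStrictlyLE i (i + 1) (by simp)).eq_of_tgt _ _)
  let α := e.inv ≫ K.homologyπ i ≫ homologyMap π i ≫ (singleObjHomologySelfIso _ _ _).hom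
  have hα : π.f i = α ≫ (singleObjXSelf (ComplexShape.up ℤ) i X).inv := by
    rw [← cancel_epi e.hom]
    dsimp [α, e]
    rw [assoc, assoc, assoc, iCyclesIso_hom_inv_id_assoc,
      homologyπ_naturality_assoc]
    dsimp [CochainComplex.singleFunctor, CochainComplex.singleFunctors]
    rw [homologyπ_singleObjHomologySelfIso_hom_assoc,
      ← singleObjCyclesSelfIso_inv_iCycles, Iso.hom_inv_id_assoc, ← cyclesMap_i]
  have hepi : Epi α := by
    dsimp only [α]
    infer_instance
  refine ⟨K.X i, α, hepi, mkHomFromSingle (𝟙 _) (by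
      rintro _ rfl
      apply (K.isZero_of_isStrictlyLE i (i + 1) (by simp)).eq_of_tgt), ?_⟩
  apply HomologicalComplex.from_single_hom_ext
  rw [comp_f, mkHomFromSingle_f, assoc, hα]
  rw [id_comp]
  exact (single_map_f_self (c := ComplexShape.up ℤ) i α).symm

lemma exists_epi_comp_eq_zero [HasDerivedCategory.{w} C] {X : C}
    {L : CochainComplex C ℤ} {i : ℤ}
    (φ : Q.obj ((CochainComplex.singleFunctor C i).obj X) ⟶ Q.obj L)
    (n : ℤ) (hn : n < i) [L.IsStrictlyLE n] :
    ∃ (P : C) (p : P ⟶ X) (_ : Epi p), Q.map ((CochainComplex.singleFunctor C i).map p) ≫ φ = 0 := by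
  obtain ⟨K, _, π, h, g, rfl⟩ := right_fac_of_isStrictlyLE φ i
  have h' := h
  rw [isIso_Q_map_iff_quasiIso] at h'
  obtain ⟨P, p, hp, j, hj⟩ := exists_epi_of_quasiIsoAt π
  refine ⟨P, p, hp, ?_⟩
  have h₂ : j ≫ g = 0 := by
    apply HomologicalComplex.from_single_hom_ext
    apply (L.isZero_of_isStrictlyLE n i hn).eq_of_tgt
  rw [← hj, Q.map_comp, assoc, IsIso.hom_inv_id_assoc, ← Q.map_comp, h₂, Q.map_zero]

set_option backward.isDefEq.respectTransparency false in
/-- **Effaceability**: every class of positive degree is killed by an epimorphism -/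
lemma ext_exists_epi [HasExt.{w} C] {X Y : C} {n : ℕ} (e : Ext X Y (n + 1)) :
    ∃ (P : C) (p : P ⟶ X) (_ : Epi p), (Ext.mk₀ p).comp e (zero_add _) = 0 := by
  let := HasDerivedCategory.standard C
  obtain ⟨P, p, hp, h⟩ := exists_epi_comp_eq_zero (X := X)
    (L := (CochainComplex.singleFunctor C (-(n + 1))).obj Y)
    (e.hom ≫ ((singleFunctors C).shiftIso (n + 1) (-(n + 1)) 0 (by lia)).hom.app _)
    (n := -(n + 1)) (by lia)
  refine ⟨P, p, hp, ?_⟩
  apply Ext.ext
  rw [Ext.comp_hom, Ext.mk₀_hom, Ext.zero_hom, ShiftedHom.mk₀_comp]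
  rw [← cancel_mono (((singleFunctors C).shiftIso (n + 1) (-(n + 1)) 0
    (by lia)).hom.app _), Limits.zero_comp, assoc]
  exact h

end Fdim.Coh
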