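import Pool.Agent.Work.MP_f714fc_ag.Coh.FreeU
import Pool.Agent.Work.MP_f714fc_ag.Coh.Affine

/-!
# Finite cohomological dimension

If `X` is covered by `m` open sets belonging to a class closed under intersections of affine open
sets whose rings of functions are noetherian of global dimension at most two, then
`Ext^n(A, B) = 0` in `X.Modules` for `n ≥ m + 2`, `A` quasi-coherent with finitely generated
sections on these open sets and `B` quasi-coherent.
-/

open CategoryTheory Limits TopologicalSpace AlgebraicGeometry Opposite Abelian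

attribute [-instance] CategoryTheory.catToReflQuiver

universe w u

namespace Fdim

open Coh

variable {X : Scheme.{u}}

/-- localization property of the sections of `A` on `U` -/
structure LocOn (A : X.Modules) (U : X.Opens) : Prop where
  inj : ∀ (f : Γ(X, U)) (s : Γ(A, U)), rs A (X.basicOpen_le f) s = 0 → ∃ n : ℕ, f ^ n • s = 0
  surj : ∀ (f : Γ(X, U)) (t : Γ(A, X.basicOpen f)), ∃ (n : ℕ) (s : Γ(A, U)),
    rs A (X.basicOpen_le f) s = rO (X.basicOpen_le f) f ^ n • t

lemma LocOn.of_isQuasicoherent (A : X.Modules) [A.IsQuasicoherent] {U : X.Opens}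
    (hU : IsAffineOpen U) : LocOn A U where
  inj f s hs := qc_unique hU A f s hs
  surj f t := qc_exists hU A f t

/-- sections of `supU A U` over `U` -/
noncomputable def supUSecEquiv (A : X.Modules) (U : X.Opens) :
    Γ((supU A U).sh, U) ≃ₗ[Γ(X, U)] Γ(A, U) where
  toFun s := ap (supU A U).ι U s
  invFun s := (supU A U).mkS s (mem_supU_of_le le_rfl s)
  left_inv _ := (supU A U).ι_injective U rfl
  right_inv _ := rfl
  map_add' _ _ := map_add _ _ _
  map_smul' _ _ := ap_smul _ _ _ _

/-- the part of `A` supported on `U` -/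
lemma LocOn.qu {A : X.Modules} {U : X.Opens} (h : LocOn A U) : QU U (supU A U).sh where
  sup V s x hx hxU := by
    obtain ⟨W, hW, hxW, h0⟩ := (mem_supU _).1 ((supU A U).ι_mem s) x hx hxU
    exact ⟨W, hW, hxW, (supU A U).ι_injective W (by rw [ap_rs, h0, map_zero])⟩
  inj f s hs := by
    obtain ⟨n, hn⟩ := h.inj f (ap (supU A U).ι U s) (by rw [← ap_rs, hs, map_zero])
    exact ⟨n, (supU A U).ι_injective U (by rw [ap_smul, hn, map_zero])⟩
  surj f t := by
    obtain ⟨n, a, ha⟩ := h.surj f (ap (supU A U).ι _ t)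
    exact ⟨n, (supU A U).mkS a (mem_supU_of_le le_rfl a), (supU A U).ι_injective _ (by
      rw [ap_rs, SubSh.ι_mkS, ha, ap_smul])⟩

/-- `W` is a union of `m` open sets of the class `G` -/
inductive CovBy (G : X.Opens → Prop) : ℕ → X.Opens → Prop
  | one {U : X.Opens} : G U → CovBy G 1 U
  | succ {m : ℕ} {W U : X.Opens} : CovBy G m W → G U → CovBy G (m + 1) (W ⊔ U)

lemma CovBy.inf {G : X.Opens → Prop} (hG : ∀ U V, G U → G V → G (U ⊓ V)) {m : ℕ}
    {W U : X.Opens} (h : CovBy G m W) (hU : G U) : CovBy G m (W ⊓ U) := by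
  induction h with
  | one h => exact CovBy.one (hG _ _ h hU)
  | succ _ hV ih =>
    rw [inf_sup_right]
    exact CovBy.succ ih (hG _ _ hV hU)

/-- the conditions on the open sets of the class -/
structure GoodOpen (U : X.Opens) : Prop where
  aff : IsAffineOpen U
  noeth : IsNoetherianRing Γ(X, U)
  gd : Loc.GD Γ(X, U) 2

variable [HasExt.{w} X.Modules]

lemma ext_biprod_eq_zero {A A' B : X.Modules} {n : ℕ} (h : ∀ x : Ext.{w} A B n, x = 0)
    (h' : ∀ x : Ext.{w} A' B n, x = 0) (x : Ext.{w} (A ⊞ A') B n) : x = 0 := by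
  apply Ext.biprod_ext
  · exact (h _).trans (Ext.comp_zero _ _ _ _ _).symm
  · exact (h' _).trans (Ext.comp_zero _ _ _ _ _).symm

/-- vanishing for the part of `A` supported on a union of `m` good open sets -/
theorem CovBy.ext_eq_zero {G : X.Opens → Prop} (hG : ∀ U V, G U → G V → G (U ⊓ V))
    (hgood : ∀ U, G U → GoodOpen U) {A B : X.Modules} (hA : ∀ U, G U → LocOn A U)
    (hfin : ∀ U, G U → Module.Finite Γ(X, U) Γ(A, U)) (hB : ∀ U, G U → Acyc.{w} U B)
    {m : ℕ} {W : X.Opens} (h : CovBy G m W) :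
    ∀ (n : ℕ) (x : Ext.{w} (supU A W).sh B (n + m + 2)), x = 0 := by
  induction m generalizing W with
  | zero => cases h
  | succ m ih =>
    have hone : ∀ U, G U → ∀ (n : ℕ) (x : Ext.{w} (supU A U).sh B (n + 3)), x = 0 := by
      intro U hU n x
      have := (hgood U hU).noeth
      have := hfin U hU
      exact (hA U hU).qu.ext_eq_zero (hgood U hU).aff (hgood U hU).gd (hB U hU)
        (Module.Finite.equiv (supUSecEquiv A U).symm) n x
    cases h with
    | one hU => intro n x; exact hone W hU n x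
    | @succ _ W' U hW hU =>
      intro n x
      have hx := ext_eq_zero_of_shortExact (B := B) (supU_mv A W' U) (n := n + m + 2)
        (ih (hW.inf hG hU) n)
        (ext_biprod_eq_zero
          (fun y => by
            have e : n + m + 2 + 1 = (n + 1) + m + 2 := by ring
            revert y
            rw [e]
            exact ih hW (n + 1))
          (fun y => by
            have e : n + m + 2 + 1 = (n + m) + 3 := by ring
            revert y
            rw [e]
            exact hone U hU (n + m)))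
      have e : n + (m + 1) + 2 = n + m + 2 + 1 := by ring
      revert x
      rw [e]
      exact hx

/-- **Finite cohomological dimension**: `Ext^n(A, B) = 0` for `n ≥ m + 2` -/
theorem ext_eq_zero_of_covBy {G : X.Opens → Prop} (hG : ∀ U V, G U → G V → G (U ⊓ V))
    (hgood : ∀ U, G U → GoodOpen U) {m : ℕ} (hcov : CovBy G m ⊤) (A B : X.Modules)
    [A.IsQuasicoherent] [B.IsQuasicoherent]
    (hfin : ∀ U, G U → Module.Finite Γ(X, U) Γ(A, U)) {p : ℕ} (hp : m + 2 ≤ p)
    (x : Ext.{w} A B p) : x = 0 := by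
  obtain ⟨n, rfl⟩ : ∃ n, p = n + m + 2 := ⟨p - (m + 2), by omega⟩
  have h := hcov.ext_eq_zero hG hgood (A := A) (B := B)
    (fun U hU => LocOn.of_isQuasicoherent A (hgood U hU).aff) hfin
    (fun U hU n α => serre_vanishing B n U (hgood U hU).aff α) n
  exact ext_eq_zero_of_retract (supUTopIso A).inv (supUTopIso A).hom (Iso.inv_hom_id _) h x

/-- four good open sets: `Ext^p(A, B) = 0` for `p ≥ 6` -/
theorem ext_eq_zero_of_four {G : X.Opens → Prop} (hG : ∀ U V, G U → G V → G (U ⊓ V))
    (hgood : ∀ U, G U → GoodOpen U) {U₀ U₁ U₂ U₃ : X.Opens} (h₀ : G U₀) (h₁ : G U₁)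
    (h₂ : G U₂) (h₃ : G U₃) (hcov : U₀ ⊔ U₁ ⊔ U₂ ⊔ U₃ = ⊤) (A B : X.Modules)
    [A.IsQuasicoherent] [B.IsQuasicoherent]
    (hfin : ∀ U, G U → Module.Finite Γ(X, U) Γ(A, U)) {p : ℕ} (hp : 6 ≤ p)
    (x : Ext.{w} A B p) : x = 0 := by
  refine ext_eq_zero_of_covBy hG hgood (m := 4) ?_ A B hfin hp x
  rw [← hcov]
  exact (((CovBy.one h₀).succ h₁).succ h₂).succ h₃

end Fdim
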