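import Pool.Agent.Work.MP_f714fc_ag.Coh.Affine
import Pool.Agent.Work.MP_f714fc_ag.Tw.Mk

/-!
# The structure sheaf and `Zf ⊤`
-/

universe w u

open CategoryTheory Limits AlgebraicGeometry TopologicalSpace Opposite Abelian

attribute [-instance] CategoryTheory.catToReflQuiver

namespace Fdim.Coh

noncomputable section

variable (X : Scheme.{u})

/-- the structure sheaf as a module over itself -/
abbrev OX : X.Modules := SheafOfModules.unit X.ringCatSheaf

variable {X}

/-- a function as a section of `OX` -/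
def toOX {U : X.Opens} (r : Γ(X, U)) : Γ(OX X, U) := r

lemma toOX_eq {U : X.Opens} (r : Γ(X, U)) : toOX r = r • toOX (1 : Γ(X, U)) :=
  (mul_one r).symm

lemma rs_toOX {U V : X.Opens} (h : V ≤ U) (r : Γ(X, U)) :
    rs (OX X) h (toOX r) = toOX (rO h r) := rfl

/-- the morphism `OX → M` given by a global section -/
def ofSec {M : X.Modules} (s : Γ(M, ⊤)) : OX X ⟶ M :=
  homMk (M := OX X) (N := M)
    (fun U => { toFun := fun r => (show Γ(X, U) from r) • rs M le_top s
                map_zero' := zero_smul Γ(X, U) _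
                map_add' := fun a b => add_smul (show Γ(X, U) from a) (show Γ(X, U) from b) _ })
    (fun U r t => by
      exact mul_smul r (show Γ(X, U) from t) (rs M le_top s))
    (fun {U V} h t => by
      change (rO h (show Γ(X, U) from t)) • rs M le_top s
        = rs M h ((show Γ(X, U) from t) • rs M le_top s)
      rw [rs_smul, rs_rs])

lemma ap_ofSec {M : X.Modules} (s : Γ(M, ⊤)) {U : X.Opens} (r : Γ(X, U)) :
    ap (ofSec s) U (toOX r) = r • rs M le_top s := rfl

/-- morphisms from the structure sheaf are global sections -/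
def oEquiv (M : X.Modules) : (OX X ⟶ M) ≃ Γ(M, ⊤) where
  toFun f := ap f ⊤ (toOX 1)
  invFun := ofSec
  left_inv f := by
    apply hom_ext'
    intro U r
    obtain ⟨r, rfl⟩ : ∃ r' : Γ(X, U), toOX r' = r := ⟨r, rfl⟩
    rw [ap_ofSec, toOX_eq r, ap_smul, ← ap_rs, rs_toOX, map_one]
  right_inv s := by
    change ap (ofSec s) ⊤ (toOX 1) = s
    rw [ap_ofSec, one_smul, rs_self]

/-- the comparison `Zf ⊤ ⟶ OX` -/
def zTop : (Zf X).obj ⊤ ⟶ OX X := (zEquiv ⊤ (OX X)).symm (toOX 1)

lemma zEquiv_zTop_comp {M : X.Modules} (f : OX X ⟶ M) :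
    zEquiv ⊤ M (zTop ≫ f) = oEquiv M f := by
  rw [zEquiv_comp, zTop, Equiv.apply_symm_apply]
  rfl

instance : IsIso (zTop : (Zf X).obj ⊤ ⟶ OX X) := by
  refine ⟨(oEquiv _).symm (zEquiv ⊤ _ (𝟙 _)), ?_, ?_⟩
  · apply (zEquiv ⊤ _).injective
    rw [zEquiv_zTop_comp, Equiv.apply_symm_apply]
  · apply (oEquiv _).injective
    rw [← zEquiv_zTop_comp, ← zEquiv_zTop_comp, ← Category.assoc]
    congr 1
    have h : zTop ≫ (oEquiv _).symm (zEquiv ⊤ _ (𝟙 _)) = 𝟙 ((Zf X).obj ⊤) := by
      apply (zEquiv ⊤ _).injective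
      rw [zEquiv_zTop_comp, Equiv.apply_symm_apply]
    rw [h, Category.id_comp, Category.comp_id]

/-- `Zf ⊤` is the structure sheaf -/
def zTopIso : (Zf X).obj ⊤ ≅ OX X := asIso zTop

end

end Fdim.Coh
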