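import Pool.Agent.Work.MP_f714fc_ag.Coh.Zf
import Pool.Agent.Work.MP_f714fc_ag.Coh.Efface

/-!
# Locality: classes of positive degree vanish locally
-/

universe u v w u'

open CategoryTheory Limits AlgebraicGeometry TopologicalSpace Opposite

attribute [-instance] CategoryTheory.catToReflQuiver

namespace Fdim.Coh

noncomputable section

section general

variable {C : Type u'} [Category.{u} C] {J : GrothendieckTopology C} {R : Sheaf J RingCat.{u}}
  [HasSheafify J AddCommGrpCat.{u}] [J.WEqualsLocallyBijective AddCommGrpCat.{u}]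

set_option backward.isDefEq.respectTransparency false in
lemma sh_cokernel_isZero {P N : SheafOfModules.{u} R} (q : P ⟶ N) [Epi q] :
    IsZero ((PresheafOfModules.sheafification (𝟙 R.obj)).obj (cokernel q.val)) := by
  let sh := PresheafOfModules.sheafification (𝟙 R.obj)
  let adj := PresheafOfModules.sheafificationAdjunction (𝟙 R.obj)
  let c := cokernel.π q.val
  have hadj : IsIso adj.counit :=
    inferInstanceAs (IsIso (PresheafOfModules.sheafificationAdjunction (𝟙 R.obj)).counit)
  have e1 : sh.map q.val ≫ adj.counit.app N = adj.counit.app P ≫ q := adj.counit.naturality q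
  have hiso : IsIso (adj.counit.app N) := inferInstance
  have hiso' : IsIso (adj.counit.app P) := inferInstance
  have h3 : Epi (sh.map q.val ≫ adj.counit.app N) := by
    rw [e1]
    exact epi_comp _ _
  have h4 : Epi (sh.map q.val) := by
    constructor
    intro Z a b hab
    have h5 : (sh.map q.val ≫ adj.counit.app N) ≫ (inv (adj.counit.app N) ≫ a)
      = (sh.map q.val ≫ adj.counit.app N) ≫ (inv (adj.counit.app N) ≫ b) := by
      rw [Category.assoc, IsIso.hom_inv_id_assoc, Category.assoc, IsIso.hom_inv_id_assoc, hab]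
    rw [cancel_epi] at h5
    exact (cancel_epi _).1 h5
  have h0 : sh.map c = 0 := by
    rw [← cancel_epi (sh.map q.val), comp_zero, ← Functor.map_comp, cokernel.condition,
      Functor.map_zero]
  have : Epi (sh.map c) := inferInstance
  exact IsZero.of_epi_eq_zero _ h0

lemma presheaf_lift {D : Type u'} [Category.{u} D] {R₀ : Dᵒᵖ ⥤ RingCat.{u}} {P N : PresheafOfModules.{u} R₀} (q : P ⟶ N) {U : Dᵒᵖ}
    (s : N.obj U) (h : (cokernel.π q).app U s = 0) : ∃ t : P.obj U, q.app U t = s := by
  have hex : (ShortComplex.mk q (cokernel.π q) (cokernel.condition q)).Exact :=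
    ShortComplex.exact_cokernel q
  have h2 := hex.map (PresheafOfModules.evaluation R₀ U)
  rw [ShortComplex.moduleCat_exact_iff] at h2
  exact h2 s h

end general

variable {X : Scheme.{u}}

lemma sec_zero_of_isZero {Z : X.Modules} (h : IsZero Z) {U : X.Opens} (a : Γ(Z, U)) : a = 0 := by
  have h1 : (𝟙 Z : Z ⟶ Z) = 0 := h.eq_of_src _ _
  have h2 : (𝟙 Z : Z ⟶ Z).app U a = (0 : Z ⟶ Z).app U a := by rw [h1]
  exact h2

set_option backward.isDefEq.respectTransparency false in
/-- an epimorphism of sheaves of modules is locally surjective -/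
lemma exists_local_lift {P N : X.Modules} (q : P ⟶ N) [hq : Epi q] {U : X.Opens} (s : Γ(N, U))
    {x : X} (hx : x ∈ U) : ∃ (V : X.Opens) (i : V ⟶ U) (_ : x ∈ V) (t : Γ(P, V)),
      q.app V t = N.presheaf.map i.op s := by
  have hz : IsZero ((PresheafOfModules.sheafification (𝟙 X.ringCatSheaf.obj)).obj (cokernel q.val)) :=
    sh_cokernel_isZero (J := Opens.grothendieckTopology X) (R := X.ringCatSheaf) (P := P) (N := N) q
  let K := cokernel q.val
  let c := cokernel.π q.val
  let k : K.presheaf.obj (op U) := c.app (op U) s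
  have hk : (CategoryTheory.toSheafify (Opens.grothendieckTopology X) K.presheaf).app (op U) k
      = (CategoryTheory.toSheafify (Opens.grothendieckTopology X) K.presheaf).app (op U) 0 := by
    have h1 := sec_zero_of_isZero (X := X) hz (U := U)
      ((CategoryTheory.toSheafify (Opens.grothendieckTopology X) K.presheaf).app (op U) k)
    have h2 := sec_zero_of_isZero (X := X) hz (U := U)
      ((CategoryTheory.toSheafify (Opens.grothendieckTopology X) K.presheaf).app (op U) 0)
    exact h1.trans h2.symm
  have hmem := Presheaf.equalizerSieve_mem (Opens.grothendieckTopology X)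
    (CategoryTheory.toSheafify (Opens.grothendieckTopology X) K.presheaf) k 0 hk
  obtain ⟨V, i, hi, hxV⟩ := hmem x hx
  have h3 : K.presheaf.map i.op k = K.presheaf.map i.op 0 := hi
  obtain ⟨t, ht⟩ := presheaf_lift q.val (U := op V) (N.val.map i.op s) (by
    have h4 : c.app (op V) (N.val.map i.op s) = K.map i.op (c.app (op U) s) :=
      PresheafOfModules.naturality_apply c i.op s
    rw [h4]
    have h5 : K.presheaf.map i.op 0 = 0 := map_zero _
    rw [h5] at h3
    exact h3)
  exact ⟨V, i, hxV, t, ht⟩

open Abelian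

/-- restriction of cohomology classes -/
def res [HasExt.{w} X.Modules] {U V : X.Opens} (i : V ⟶ U) {M : X.Modules} {n : ℕ}
    (α : Ext ((Zf X).obj U) M n) : Ext ((Zf X).obj V) M n :=
  (Ext.mk₀ ((Zf X).map i)).comp α (zero_add _)

/-- a class of positive degree is locally zero -/
lemma exists_res_eq_zero [HasExt.{w} X.Modules] {U : X.Opens} {M : X.Modules} {n : ℕ}
    (α : Ext ((Zf X).obj U) M (n + 1)) {x : X} (hx : x ∈ U) :
    ∃ (V : X.Opens) (i : V ⟶ U) (_ : x ∈ V), res i α = 0 := by
  obtain ⟨P, p, hp, h⟩ := ext_exists_epi α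
  obtain ⟨V, i, hxV, t, ht⟩ := exists_local_lift p (zOne U) hx
  refine ⟨V, i, hxV, ?_⟩
  have h1 : (Zf X).map i = (zEquiv V P).symm t ≫ p := by
    apply (zEquiv V _).injective
    rw [zEquiv_comp, Equiv.apply_symm_apply, ht]
    have := zEquiv_map i (𝟙 ((Zf X).obj U))
    rw [Category.comp_id] at this
    exact this
  rw [res, h1, ← Ext.mk₀_comp_mk₀_assoc, h, Ext.comp_zero]

end

end Fdim.Coh
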