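import Pool.Agent.Work.MP_f714fc_ag.Coh.Affine

/-!
# Cohomology of quasi-coherent modules and finite affine covers
-/

universe w u

open CategoryTheory Limits AlgebraicGeometry TopologicalSpace Opposite Abelian

attribute [-instance] CategoryTheory.catToReflQuiver

namespace Fdim.Coh

noncomputable section

variable {X : Scheme.{u}} [HasExt.{w} X.Modules]

/-! ## Change of the open set along an equality -/

lemma res_eq_zero_iff {U V : X.Opens} (h : U = V) {M : X.Modules} {n : ℕ}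
    (α : Ext ((Zf X).obj V) M n) : res (homOfLE h.le) α = 0 ↔ α = 0 := by
  subst h
  rw [show homOfLE (le_refl U) = 𝟙 U from rfl, res_id]

/-- the cohomology group `H^n(U, M)` vanishes -/
def HVan (U : X.Opens) (M : X.Modules) (n : ℕ) : Prop :=
  ∀ α : Ext ((Zf X).obj U) M n, α = 0

lemma HVan.congr {U V : X.Opens} (h : U = V) {M : X.Modules} {n : ℕ} (hU : HVan U M n) :
    HVan V M n := by
  subst h
  exact hU

lemma HVan.bot (M : X.Modules) (n : ℕ) : HVan (⊥ : X.Opens) M n := by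
  intro α
  have h0 : Subsingleton Γ(X, ⊥) := inferInstance
  have h1 : 𝟙 ((Zf X).obj ⊥) = 0 := by
    apply (zEquiv _ _).injective
    have h2 : (1 : Γ(X, ⊥)) = 0 := Subsingleton.elim _ _
    rw [← one_smul Γ(X, ⊥) (zEquiv ⊥ _ (𝟙 _)), h2, zero_smul,
      ← one_smul Γ(X, ⊥) (zEquiv ⊥ _ 0), h2, zero_smul]
  rw [← Ext.mk₀_id_comp α, h1, Ext.mk₀_zero, Ext.zero_comp]

lemma HVan.affine {U : X.Opens} (hU : IsAffineOpen U) (M : X.Modules) [M.IsQuasicoherent] {n : ℕ}
    (hn : 1 ≤ n) : HVan U M n := by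
  obtain ⟨m, rfl⟩ := Nat.exists_eq_add_of_le' hn
  exact fun α => serre_vanishing M m U hU α

/-- Mayer-Vietoris and vanishing -/
lemma HVan.sup {U V : X.Opens} {M : X.Modules} {n : ℕ} (h : HVan (U ⊓ V) M n)
    (hU : HVan U M (n + 1)) (hV : HVan V M (n + 1)) : HVan (U ⊔ V) M (n + 1) := by
  intro α
  obtain ⟨β, rfl⟩ := mv_exact_sup (show 1 + n = n + 1 by omega) α (hU _) (hV _)
  rw [h β, bd, Ext.comp_zero]

/-- the cohomology vanishes in degrees `≥ N` if there are `N` affine open sets which cover and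
intersections of affine open sets are affine -/
theorem HVan.of_cover (hsep : ∀ U V : X.Opens, IsAffineOpen U → IsAffineOpen V →
      IsAffineOpen (U ⊓ V)) (M : X.Modules) [M.IsQuasicoherent] {ι : Type*} (s : Finset ι) :
    ∀ (U : ι → X.Opens), (∀ i ∈ s, IsAffineOpen (U i)) → ∀ n : ℕ, s.card ≤ n →
      HVan (s.sup U) M n := by
  classical
  induction s using Finset.induction_on with
  | empty => exact fun U _ n _ => HVan.bot M n
  | insert a s ha IH =>
    intro U hU n hn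
    rw [Finset.card_insert_of_notMem ha] at hn
    obtain ⟨m, rfl⟩ : ∃ m, n = m + 1 := ⟨n - 1, by omega⟩
    rw [Finset.sup_insert]
    refine HVan.sup ?_ (HVan.affine (hU a (Finset.mem_insert_self _ _)) M (by omega)) ?_
    · have h1 := IH (fun i => U a ⊓ U i) (fun i hi => hsep _ _ (hU a (Finset.mem_insert_self _ _))
        (hU i (Finset.mem_insert_of_mem hi))) m (by omega)
      refine h1.congr ?_
      rw [Finset.sup_inf_distrib_left]
    · exact IH U (fun i hi => hU i (Finset.mem_insert_of_mem hi)) (m + 1) (by omega)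

/-! ## Two open sets -/

section two

variable {U V : X.Opens} {M : X.Modules}

/-- `H^1(U ∪ V)` for `H^1(U) = H^1(V) = 0` -/
lemma exists_bd (hU : HVan U M 1) (hV : HVan V M 1) (α : Ext ((Zf X).obj (U ⊔ V)) M 1) :
    ∃ s : Γ(M, U ⊓ V), α = bd U V (add_zero 1) ((secEquiv _ _).symm s) := by
  obtain ⟨β, rfl⟩ := mv_exact_sup (add_zero 1) α (hU _) (hV _)
  exact ⟨secEquiv _ _ β, by rw [Equiv.symm_apply_apply]⟩

lemma bd_eq_zero_iff (s : Γ(M, U ⊓ V)) : bd U V (add_zero 1) ((secEquiv _ _).symm s) = 0 ↔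
    ∃ (a : Γ(M, U)) (b : Γ(M, V)), s = rs M inf_le_left a - rs M inf_le_right b := by
  constructor
  · intro h
    obtain ⟨γ, δ, h1⟩ := mv_exact_inf _ _ h
    refine ⟨secEquiv _ _ γ, secEquiv _ _ δ, ?_⟩
    have h2 := congrArg (secEquiv _ _) h1
    rw [Equiv.apply_symm_apply, secEquiv_sub, secEquiv_rs, secEquiv_rs] at h2
    exact h2
  · rintro ⟨a, b, rfl⟩
    have h2 : (secEquiv (U ⊓ V) M).symm (rs M inf_le_left a - rs M inf_le_right b) =
        res (homOfLE inf_le_left) ((secEquiv _ _).symm a)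
        - res (homOfLE inf_le_right) ((secEquiv _ _).symm b) := by
      apply (secEquiv _ _).injective
      rw [Equiv.apply_symm_apply, secEquiv_sub, secEquiv_rs, secEquiv_rs,
        Equiv.apply_symm_apply, Equiv.apply_symm_apply]
    rw [h2, bd_res]

/-- `H^1(U ∪ V) = 0` if every section on `U ∩ V` is a difference -/
lemma HVan.one (hU : HVan U M 1) (hV : HVan V M 1) (h : ∀ s : Γ(M, U ⊓ V),
    ∃ (a : Γ(M, U)) (b : Γ(M, V)), s = rs M inf_le_left a - rs M inf_le_right b) :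
    HVan (U ⊔ V) M 1 := by
  intro α
  obtain ⟨s, rfl⟩ := exists_bd hU hV α
  exact (bd_eq_zero_iff s).2 (h s)

/-- and conversely -/
lemma exists_of_HVan (h : HVan (U ⊔ V) M 1) (s : Γ(M, U ⊓ V)) :
    ∃ (a : Γ(M, U)) (b : Γ(M, V)), s = rs M inf_le_left a - rs M inf_le_right b :=
  (bd_eq_zero_iff s).1 (h _)

end two

/-! ## Four open sets -/

/-- cohomology in degrees `≥ 3` for four affine open sets in the position of a product cover -/
theorem HVan.four {U₀ U₁ U₂ U₃ W₀ W₁ : X.Opens} (h0 : IsAffineOpen U₀) (h1 : IsAffineOpen U₁)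
    (h2 : IsAffineOpen U₂) (h3 : IsAffineOpen U₃) (h01 : IsAffineOpen (U₀ ⊓ U₁))
    (h23 : IsAffineOpen (U₂ ⊓ U₃)) (hW0 : IsAffineOpen W₀) (hW1 : IsAffineOpen W₁)
    (hW : IsAffineOpen (W₀ ⊓ W₁)) (hsup : W₀ ⊔ W₁ = (U₀ ⊔ U₁) ⊓ (U₂ ⊔ U₃))
    (M : X.Modules) [M.IsQuasicoherent] {n : ℕ} (hn : 3 ≤ n) :
    HVan (U₀ ⊔ U₁ ⊔ (U₂ ⊔ U₃)) M n := by
  obtain ⟨m, rfl⟩ : ∃ m, n = m + 1 + 1 + 1 := ⟨n - 3, by omega⟩
  refine HVan.sup ?_ ?_ ?_
  · exact (HVan.sup (HVan.affine hW M (by omega)) (HVan.affine hW0 M (by omega))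
      (HVan.affine hW1 M (by omega))).congr hsup
  · exact HVan.sup (HVan.affine h01 M (by omega)) (HVan.affine h0 M (by omega))
      (HVan.affine h1 M (by omega))
  · exact HVan.sup (HVan.affine h23 M (by omega)) (HVan.affine h2 M (by omega))
      (HVan.affine h3 M (by omega))

end

end Fdim.Coh
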