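import Pool.Agent.Work.MP_f714fc_ag.Coh.ZfQU
import Pool.Agent.Work.MP_f714fc_ag.Loc.GD

/-!
# Finite free sheaves on an affine open set, extended by zero; vanishing of Ext
-/

open CategoryTheory Limits TopologicalSpace AlgebraicGeometry Opposite Abelian

attribute [-instance] CategoryTheory.catToReflQuiver

universe w u

namespace Fdim

open Coh

variable {X : Scheme.{u}} {U : X.Opens}

/-- finite sums of copies of `Zf U` -/
inductive FreeU (U : X.Opens) : X.Modules → Prop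
  | zero {Z : X.Modules} (h : IsZero Z) : FreeU U Z
  | zf : FreeU U ((Zf X).obj U)
  | sum {A B : X.Modules} : FreeU U A → FreeU U B → FreeU U (A ⊞ B)

lemma FreeU.qu (hU : IsAffineOpen U) {P : X.Modules} (h : FreeU U P) : QU U P := by
  induction h with
  | zero h => exact QU.of_isZero h
  | zf => exact QU.zf hU
  | sum _ _ ha hb => exact ha.biprod hb

/-- sections of a binary sum -/
noncomputable def biprodSecEquiv (A B : X.Modules) (V : X.Opens) :
    Γ(A ⊞ B, V) ≃ₗ[Γ(X, V)] (Γ(A, V) × Γ(B, V)) where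
  toFun s := (ap biprod.fst V s, ap biprod.snd V s)
  invFun s := ap (biprod.inl : A ⟶ A ⊞ B) V s.1 + ap (biprod.inr : B ⟶ A ⊞ B) V s.2
  left_inv s := ap_total V s
  right_inv s := by
    refine Prod.ext ?_ ?_
    · show ap (biprod.fst : A ⊞ B ⟶ A) V _ = s.1
      rw [map_add, ← ap_comp, ← ap_comp, biprod.inl_fst, biprod.inr_fst, ap_id, ap_zero, add_zero]
    · show ap (biprod.snd : A ⊞ B ⟶ B) V _ = s.2
      rw [map_add, ← ap_comp, ← ap_comp, biprod.inl_snd, biprod.inr_snd, ap_id, ap_zero, zero_add]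
  map_add' s t := by simp
  map_smul' r s := by simp

lemma FreeU.projective {P : X.Modules} (h : FreeU U P) :
    Module.Projective Γ(X, U) Γ(P, U) := by
  induction h with
  | @zero Z h =>
    have : Subsingleton Γ(Z, U) := ⟨fun a b => by rw [sec_of_isZero h a, sec_of_isZero h b]⟩
    infer_instance
  | zf => exact Module.Projective.of_equiv (zfSecEquiv U le_rfl)
  | @sum A B _ _ ha hb => exact Module.Projective.of_equiv (biprodSecEquiv A B U).symm

lemma FreeU.finite {P : X.Modules} (h : FreeU U P) :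
    Module.Finite Γ(X, U) Γ(P, U) := by
  induction h with
  | @zero Z h =>
    have : Subsingleton Γ(Z, U) := ⟨fun a b => by rw [sec_of_isZero h a, sec_of_isZero h b]⟩
    infer_instance
  | zf => exact Module.Finite.equiv (zfSecEquiv U le_rfl)
  | @sum A B _ _ ha hb => exact Module.Finite.equiv (biprodSecEquiv A B U).symm

/-- linear maps on sections over `U` are induced by morphisms -/
lemma FreeU.exists_hom {P : X.Modules} (h : FreeU U P) {G : X.Modules}
    (ψ : Γ(P, U) →ₗ[Γ(X, U)] Γ(G, U)) : ∃ φ : P ⟶ G, ∀ s, ap φ U s = ψ s := by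
  induction h with
  | @zero Z h =>
    refine ⟨0, fun s => ?_⟩
    rw [sec_of_isZero h s, map_zero, map_zero]
  | zf =>
    refine ⟨(zEquiv U G).symm (ψ (zOne U)), fun s => ?_⟩
    obtain ⟨r, rfl⟩ := zf_exists_smul U le_rfl s
    rw [rs_self, ap_smul, ap_zOne, Equiv.apply_symm_apply, map_smul]
  | @sum A B _ _ ha hb =>
    obtain ⟨f, hf⟩ := ha (ψ ∘ₗ apL (biprod.inl : A ⟶ A ⊞ B) U)
    obtain ⟨g, hg⟩ := hb (ψ ∘ₗ apL (biprod.inr : B ⟶ A ⊞ B) U)
    refine ⟨biprod.desc f g, fun s => ?_⟩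
    have e1 : ap (biprod.desc f g) U (ap (biprod.inl : A ⟶ A ⊞ B) U (ap biprod.fst U s)) =
        ψ (ap (biprod.inl : A ⟶ A ⊞ B) U (ap biprod.fst U s)) := by
      rw [← ap_comp biprod.inl, biprod.inl_desc, hf]
      rfl
    have e2 : ap (biprod.desc f g) U (ap (biprod.inr : B ⟶ A ⊞ B) U (ap biprod.snd U s)) =
        ψ (ap (biprod.inr : B ⟶ A ⊞ B) U (ap biprod.snd U s)) := by
      rw [← ap_comp biprod.inr, biprod.inr_desc, hg]
      rfl
    conv_lhs => rw [← ap_total U s]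
    conv_rhs => rw [← ap_total U s]
    rw [map_add, map_add, e1, e2]

/-- finitely generated submodules of sections are covered -/
lemma exists_freeU (G : X.Modules) (N : Submodule Γ(X, U) Γ(G, U)) (hN : N.FG) :
    ∃ (P : X.Modules) (_ : FreeU U P) (p : P ⟶ G), ∀ s ∈ N, ∃ t, ap p U t = s := by
  induction N, hN using Submodule.fg_induction with
  | singleton x =>
    refine ⟨_, FreeU.zf, (zEquiv U G).symm x, fun s hs => ?_⟩
    obtain ⟨r, rfl⟩ := Submodule.mem_span_singleton.1 hs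
    exact ⟨r • zOne U, by rw [ap_smul, ap_zOne, Equiv.apply_symm_apply]⟩
  | sup N₁ N₂ _ _ h1 h2 =>
    obtain ⟨P, hP, p, hp⟩ := h1
    obtain ⟨Q, hQ, q, hq⟩ := h2
    refine ⟨P ⊞ Q, FreeU.sum hP hQ, biprod.desc p q, fun s hs => ?_⟩
    obtain ⟨a, ha, b, hb, rfl⟩ := Submodule.mem_sup.1 hs
    obtain ⟨c, hc⟩ := hp a ha
    obtain ⟨d, hd⟩ := hq b hb
    exact ⟨ap (biprod.inl : P ⟶ P ⊞ Q) U c + ap (biprod.inr : Q ⟶ P ⊞ Q) U d, by
      rw [map_add, ← ap_comp, ← ap_comp, biprod.inl_desc, biprod.inr_desc, hc, hd]⟩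

lemma exists_cover (G : X.Modules) (hG : Module.Finite Γ(X, U) Γ(G, U)) :
    ∃ (P : X.Modules) (_ : FreeU U P) (p : P ⟶ G), Function.Surjective (ap p U) := by
  obtain ⟨P, hP, p, hp⟩ := exists_freeU G ⊤ hG.1
  exact ⟨P, hP, p, fun s => hp s trivial⟩

/-- **morphisms out of a sheaf in `QU U`** with finitely generated sections -/
lemma QU.exists_hom (hU : IsAffineOpen U) {F G : X.Modules} (hF : QU U F)
    (hfin : Module.Finite Γ(X, U) Γ(F, U)) (ψ : Γ(F, U) →ₗ[Γ(X, U)] Γ(G, U)) :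
    ∃ φ : F ⟶ G, ∀ s, ap φ U s = ψ s := by
  obtain ⟨P, hP, p, hp⟩ := exists_cover F hfin
  have hepi : Epi p := hF.epi hU p hp
  obtain ⟨a, ha⟩ := hP.exists_hom (ψ ∘ₗ apL p U)
  have hK : QU U (Fdim.kerSub p).sh := (hP.qu hU).kerSub hF p
  have h0 : (Fdim.kerSub p).ι ≫ a = 0 := by
    apply hK.hom_ext hU
    intro s
    rw [ap_comp, ha, ap_zero]
    show ψ (ap p U (ap (Fdim.kerSub p).ι U s)) = 0
    rw [(mem_kerSub p _).1 ((Fdim.kerSub p).ι_mem s), map_zero]
  have hS := kerSub_shortExact p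
  let φ : F ⟶ G := hS.exact.desc a h0
  have hφ : p ≫ φ = a := hS.exact.g_desc a h0
  refine ⟨φ, fun s => ?_⟩
  obtain ⟨t, rfl⟩ := hp s
  rw [← ap_comp, hφ, ha]
  rfl

/-- a sheaf in `QU U` with finitely generated projective sections is a summand of a free one -/
lemma QU.exists_retract (hU : IsAffineOpen U) {F : X.Modules} (hF : QU U F)
    (hfin : Module.Finite Γ(X, U) Γ(F, U)) (hproj : Module.Projective Γ(X, U) Γ(F, U)) :
    ∃ (P : X.Modules) (_ : FreeU U P) (i : F ⟶ P) (p : P ⟶ F), i ≫ p = 𝟙 F := by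
  obtain ⟨P, hP, p, hp⟩ := exists_cover F hfin
  obtain ⟨σ, hσ⟩ := Module.projective_lifting_property (apL p U) LinearMap.id hp
  obtain ⟨i, hi⟩ := hF.exists_hom hU hfin σ
  refine ⟨P, hP, i, p, hF.hom_ext hU fun s => ?_⟩
  rw [ap_comp, hi, ap_id]
  exact LinearMap.congr_fun hσ s

section ext

variable [HasExt.{w} X.Modules] {B : X.Modules}

/-- `Ext^p(Zf U, B) = 0` for all positive `p` -/
def Acyc (U : X.Opens) (B : X.Modules) : Prop :=
  ∀ (n : ℕ) (x : Ext.{w} ((Zf X).obj U) B (n + 1)), x = 0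

lemma ext_of_isZero_left {Z : X.Modules} (h : IsZero Z) {n : ℕ} (x : Ext.{w} Z B n) : x = 0 := by
  have h1 : (𝟙 Z : Z ⟶ Z) = 0 := h.eq_of_src _ _
  rw [← Ext.mk₀_id_comp x, h1, Ext.mk₀_zero, Ext.zero_comp]

lemma FreeU.ext_eq_zero (hB : Acyc.{w} U B) {P : X.Modules} (h : FreeU U P) (n : ℕ)
    (x : Ext.{w} P B (n + 1)) : x = 0 := by
  induction h with
  | zero h => exact ext_of_isZero_left h x
  | zf => exact hB n x
  | sum _ _ ha hb =>
    apply Ext.biprod_ext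
    · exact (ha _).trans (Ext.comp_zero _ _ _ _ _).symm
    · exact (hb _).trans (Ext.comp_zero _ _ _ _ _).symm

lemma ext_eq_zero_of_retract {F P : X.Modules} (i : F ⟶ P) (p : P ⟶ F) (h : i ≫ p = 𝟙 F)
    {n : ℕ} (hP : ∀ y : Ext.{w} P B n, y = 0) (x : Ext.{w} F B n) : x = 0 := by
  rw [← Ext.mk₀_id_comp x, ← h, ← Ext.mk₀_comp_mk₀_assoc, hP ((Ext.mk₀ p).comp x (zero_add n)),
    Ext.comp_zero]

/-- dimension shift -/
lemma ext_eq_zero_of_shortExact {S : ShortComplex X.Modules} (hS : S.ShortExact) {n : ℕ}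
    (h1 : ∀ y : Ext.{w} S.X₁ B n, y = 0) (h2 : ∀ y : Ext.{w} S.X₂ B (n + 1), y = 0)
    (x : Ext.{w} S.X₃ B (n + 1)) : x = 0 := by
  obtain ⟨y, hy⟩ := Ext.contravariant_sequence_exact₃ hS B x (h2 _) (add_comm 1 n)
  rw [← hy, h1 y, Ext.comp_zero]

/-- projective sections: no higher Ext -/
lemma QU.ext_eq_zero_of_projective (hU : IsAffineOpen U) (hB : Acyc.{w} U B) {F : X.Modules}
    (hF : QU U F) (hfin : Module.Finite Γ(X, U) Γ(F, U))
    (hproj : Module.Projective Γ(X, U) Γ(F, U)) (n : ℕ) (x : Ext.{w} F B (n + 1)) : x = 0 := by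
  obtain ⟨P, hP, i, p, h⟩ := hF.exists_retract hU hfin hproj
  exact ext_eq_zero_of_retract i p h (hP.ext_eq_zero hB n) x

omit [HasExt.{w} X.Modules] in
lemma finite_ker_sections [IsNoetherianRing Γ(X, U)] {F G : X.Modules} (φ : F ⟶ G)
    (hfin : Module.Finite Γ(X, U) Γ(F, U)) :
    Module.Finite Γ(X, U) Γ((Fdim.kerSub φ).sh, U) := by
  have : Module.Finite Γ(X, U) (LinearMap.ker (apL φ U)) :=
    Module.Finite.of_fg (IsNoetherian.noetherian _)
  exact Module.Finite.equiv (kerSubEquiv φ U).symm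

/-- **Vanishing above the global dimension**: `Ext^n(F, B) = 0` for `n ≥ 3` if `F` is supported
on the affine open set `U`, quasi-coherent and coherent there, and the functions on `U` have
global dimension at most two. -/
theorem QU.ext_eq_zero (hU : IsAffineOpen U) [IsNoetherianRing Γ(X, U)]
    (hgd : Loc.GD Γ(X, U) 2) (hB : Acyc.{w} U B) {F : X.Modules}
    (hF : QU U F) (hfin : Module.Finite Γ(X, U) Γ(F, U)) (n : ℕ) (x : Ext.{w} F B (n + 3)) :
    x = 0 := by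
  obtain ⟨P₀, hP₀, p₀, hp₀⟩ := exists_cover F hfin
  have e₀ : Epi p₀ := hF.epi hU p₀ hp₀
  have hK₁ : QU U (Fdim.kerSub p₀).sh := (hP₀.qu hU).kerSub hF p₀
  have hf₁ := finite_ker_sections p₀ hP₀.finite
  obtain ⟨P₁, hP₁, p₁, hp₁⟩ := exists_cover (Fdim.kerSub p₀).sh hf₁
  have e₁ : Epi p₁ := hK₁.epi hU p₁ hp₁
  have hK₂ : QU U (Fdim.kerSub p₁).sh := (hP₁.qu hU).kerSub hK₁ p₁
  have hf₂ := finite_ker_sections p₁ hP₁.finite
  have hpr₀ := hP₀.projective
  have hpr₁ := hP₁.projective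
  have hproj : Module.Projective Γ(X, U) Γ((Fdim.kerSub p₁).sh, U) := by
    refine hgd.projective_syzygy_two (apL (Fdim.kerSub p₁).ι U) ((Fdim.kerSub p₁).ι_injective U)
      (apL (p₁ ≫ (Fdim.kerSub p₀).ι) U) ?_
    intro s
    constructor
    · intro hs
      have h1 : ap p₁ U s = 0 := by
        apply (Fdim.kerSub p₀).ι_injective U
        rw [map_zero]
        exact hs
      exact ⟨(Fdim.kerSub p₁).mkS s ((mem_kerSub p₁ s).2 h1), rfl⟩
    · rintro ⟨t, rfl⟩
      show ap (p₁ ≫ (Fdim.kerSub p₀).ι) U (ap (Fdim.kerSub p₁).ι U t) = 0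
      rw [ap_comp, (mem_kerSub p₁ _).1 ((Fdim.kerSub p₁).ι_mem t), map_zero]
  have h₂ : ∀ m (y : Ext.{w} (Fdim.kerSub p₁).sh B (m + 1)), y = 0 :=
    fun m y => hK₂.ext_eq_zero_of_projective hU hB hf₂ hproj m y
  have h₁ : ∀ m (y : Ext.{w} (Fdim.kerSub p₀).sh B (m + 2)), y = 0 := fun m y =>
    ext_eq_zero_of_shortExact (kerSub_shortExact p₁) (h₂ m) (hP₁.ext_eq_zero hB (m + 1)) y
  exact ext_eq_zero_of_shortExact (kerSub_shortExact p₀) (h₁ n) (hP₀.ext_eq_zero hB (n + 2)) x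

end ext

end Fdim
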