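import Pool.Agent.Work.MP_f714fc_ag.Coh.Local
import Pool.Agent.Work.MP_f714fc_ag.Coh.Qc

/-!
# Mayer-Vietoris for the cohomology of sheaves of modules
-/

universe w u

open CategoryTheory Limits AlgebraicGeometry TopologicalSpace Opposite Abelian

attribute [-instance] CategoryTheory.catToReflQuiver

namespace Fdim.Coh

noncomputable section

variable {X : Scheme.{u}}

section res

variable [HasExt.{w} X.Modules]

lemma res_id {U : X.Opens} {M : X.Modules} {n : ℕ} (α : Ext ((Zf X).obj U) M n) :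
    res (𝟙 U) α = α := by
  rw [res, CategoryTheory.Functor.map_id, Ext.mk₀_id_comp]

lemma res_res {U V W : X.Opens} (i : V ⟶ U) (j : W ⟶ V) {M : X.Modules} {n : ℕ}
    (α : Ext ((Zf X).obj U) M n) : res j (res i α) = res (j ≫ i) α := by
  rw [res, res, res, Functor.map_comp, Ext.mk₀_comp_mk₀_assoc]

lemma res_zero {U V : X.Opens} (i : V ⟶ U) {M : X.Modules} {n : ℕ} :
    res i (0 : Ext ((Zf X).obj U) M n) = 0 := by
  rw [res, Ext.comp_zero]

lemma res_add {U V : X.Opens} (i : V ⟶ U) {M : X.Modules} {n : ℕ}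
    (α β : Ext ((Zf X).obj U) M n) : res i (α + β) = res i α + res i β := by
  rw [res, res, res, Ext.comp_add]

lemma res_neg {U V : X.Opens} (i : V ⟶ U) {M : X.Modules} {n : ℕ}
    (α : Ext ((Zf X).obj U) M n) : res i (-α) = -res i α := by
  rw [res, res, Ext.comp_neg]

/-- the class of a section -/
def secEquiv (U : X.Opens) (M : X.Modules) : Ext ((Zf X).obj U) M 0 ≃ Γ(M, U) :=
  Ext.homEquiv₀.trans (zEquiv U M)

lemma comp_mv_g {U V : X.Opens} {M : X.Modules} {n : ℕ}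
    (α : Ext ((Zf X).obj (U ⊔ V)) M n) (h1 : res (homOfLE le_sup_left) α = 0)
    (h2 : res (homOfLE le_sup_right) α = 0) :
    (Ext.mk₀ (mvComplex U V).g).comp α (zero_add _) = 0 := by
  apply Ext.biprod_ext
  · rw [Ext.mk₀_comp_mk₀_assoc, Ext.comp_zero, biprod.inl_desc]
    exact h1
  · rw [Ext.mk₀_comp_mk₀_assoc, Ext.comp_zero, biprod.inr_desc]
    exact h2

lemma mv_f_comp {U V : X.Opens} {M : X.Modules} {n : ℕ}
    (x : Ext ((Zf X).obj U ⊞ (Zf X).obj V) M n) :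
    (Ext.mk₀ (mvComplex U V).f).comp x (zero_add _) =
      res (homOfLE inf_le_left) ((Ext.mk₀ biprod.inl).comp x (zero_add _))
      - res (homOfLE inf_le_right) ((Ext.mk₀ biprod.inr).comp x (zero_add _)) := by
  have hf : (mvComplex U V).f = (Zf X).map (homOfLE inf_le_left) ≫ biprod.inl +
      -((Zf X).map (homOfLE inf_le_right) ≫ biprod.inr) := by
    rw [← Preadditive.neg_comp]
    exact biprod.lift_eq
  rw [res, res, Ext.mk₀_comp_mk₀_assoc, Ext.mk₀_comp_mk₀_assoc, hf, Ext.mk₀_add, Ext.mk₀_neg,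
    Ext.add_comp, Ext.neg_comp, ← sub_eq_add_neg]

/-- the boundary map of Mayer-Vietoris -/
def bd (U V : X.Opens) {M : X.Modules} {n m : ℕ} (h : 1 + n = m)
    (β : Ext ((Zf X).obj (U ⊓ V)) M n) : Ext ((Zf X).obj (U ⊔ V)) M m :=
  (mv_shortExact U V).extClass.comp β h

lemma bd_add {U V : X.Opens} {M : X.Modules} {n m : ℕ} (h : 1 + n = m)
    (β γ : Ext ((Zf X).obj (U ⊓ V)) M n) : bd U V h (β + γ) = bd U V h β + bd U V h γ := by
  rw [bd, bd, bd, Ext.comp_add]

/-- Mayer-Vietoris, exactness at `H(U ⊔ V)` -/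
lemma mv_exact_sup {U V : X.Opens} {M : X.Modules} {n m : ℕ} (h : 1 + n = m)
    (α : Ext ((Zf X).obj (U ⊔ V)) M m) (h1 : res (homOfLE le_sup_left) α = 0)
    (h2 : res (homOfLE le_sup_right) α = 0) : ∃ β, bd U V h β = α :=
  Ext.contravariant_sequence_exact₃ (mv_shortExact U V) M α (comp_mv_g α h1 h2) h

/-- Mayer-Vietoris, exactness at `H(U ⊓ V)` -/
lemma mv_exact_inf {U V : X.Opens} {M : X.Modules} {n m : ℕ} (h : 1 + n = m)
    (β : Ext ((Zf X).obj (U ⊓ V)) M n) (hβ : bd U V h β = 0) :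
    ∃ γ δ, β = res (homOfLE inf_le_left) γ - res (homOfLE inf_le_right) δ := by
  obtain ⟨x, hx⟩ := Ext.contravariant_sequence_exact₁ (mv_shortExact U V) M β h hβ
  exact ⟨_, _, hx.symm.trans (mv_f_comp x)⟩

lemma bd_res {U V : X.Opens} {M : X.Modules} {n m : ℕ} (h : 1 + n = m)
    (γ : Ext ((Zf X).obj U) M n) (δ : Ext ((Zf X).obj V) M n) :
    bd U V h (res (homOfLE inf_le_left) γ - res (homOfLE inf_le_right) δ) = 0 := by
  have h1 := mv_f_comp ((Ext.biprodAddEquiv (X₁ := (Zf X).obj U) (X₂ := (Zf X).obj V)).symm (γ, δ))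
  have h2 := (Ext.biprodAddEquiv (X₁ := (Zf X).obj U) (X₂ := (Zf X).obj V)).apply_symm_apply (γ, δ)
  have h3 := congrArg Prod.fst h2
  have h4 := congrArg Prod.snd h2
  change (Ext.mk₀ biprod.inl).comp _ (zero_add _) = γ at h3
  change (Ext.mk₀ biprod.inr).comp _ (zero_add _) = δ at h4
  rw [h3, h4] at h1
  rw [← h1, bd]
  exact ShortComplex.ShortExact.extClass_comp_assoc _ _

/-- Mayer-Vietoris, exactness at `H(U) ⊕ H(V)` -/
lemma mv_glue {U V : X.Opens} {M : X.Modules} {n : ℕ}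
    (γ : Ext ((Zf X).obj U) M n) (δ : Ext ((Zf X).obj V) M n)
    (h : res (homOfLE (inf_le_left : U ⊓ V ≤ U)) γ = res (homOfLE (inf_le_right : U ⊓ V ≤ V)) δ) :
    ∃ α : Ext ((Zf X).obj (U ⊔ V)) M n, res (homOfLE le_sup_left) α = γ ∧
      res (homOfLE le_sup_right) α = δ := by
  have h1 := mv_f_comp ((Ext.biprodAddEquiv (X₁ := (Zf X).obj U) (X₂ := (Zf X).obj V)).symm (γ, δ))
  have h2 := (Ext.biprodAddEquiv (X₁ := (Zf X).obj U) (X₂ := (Zf X).obj V)).apply_symm_apply (γ, δ)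
  have h3 := congrArg Prod.fst h2
  have h4 := congrArg Prod.snd h2
  change (Ext.mk₀ biprod.inl).comp _ (zero_add _) = γ at h3
  change (Ext.mk₀ biprod.inr).comp _ (zero_add _) = δ at h4
  rw [h3, h4, h, sub_self] at h1
  obtain ⟨α, hα⟩ := Ext.contravariant_sequence_exact₂ (mv_shortExact U V) M _ h1
  refine ⟨α, ?_, ?_⟩
  · rw [← h3, ← hα, Ext.mk₀_comp_mk₀_assoc, biprod.inl_desc]
    rfl
  · rw [← h4, ← hα, Ext.mk₀_comp_mk₀_assoc, biprod.inr_desc]
    rfl

end res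

end

end Fdim.Coh
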