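import Pool.Agent.Work.MP_f714fc_ag.Coh.SubU

/-!
# Sheaves supported on an affine open set and quasi-coherent there

`QU U F` : every section of `F` vanishes near the points outside `U`, and
`Γ(F, D(f)) = Γ(F, U)_f` for `f ∈ Γ(X, U)`.
-/

open CategoryTheory Limits TopologicalSpace AlgebraicGeometry Opposite

attribute [-instance] CategoryTheory.catToReflQuiver

universe u

namespace Fdim

variable {X : Scheme.{u}}

lemma ap_neg {M N : X.Modules} (φ : M ⟶ N) (U : X.Opens) (s : Γ(M, U)) :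
    ap (-φ) U s = -ap φ U s := by
  have h4 : ap (-φ) U s + ap φ U s = 0 := by
    rw [← ap_add, neg_add_cancel, ap_zero]
  exact eq_neg_of_add_eq_zero_left h4

lemma qu_isUnit_rO {U : X.Opens} (f : Γ(X, U)) :
    IsUnit (rO (X.basicOpen_le f) f) :=
  RingedSpace.isUnit_res_basicOpen X.toRingedSpace f

/-- a module over functions: scalar multiplication by a power of the unit `f` on `D(f)` -/
lemma smul_pow_cancel {U : X.Opens} (f : Γ(X, U)) (M : X.Modules) (n : ℕ)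
    {s t : Γ(M, X.basicOpen f)}
    (h : rO (X.basicOpen_le f) f ^ n • s = rO (X.basicOpen_le f) f ^ n • t) : s = t := by
  obtain ⟨v, hv⟩ := (qu_isUnit_rO f).pow n
  rw [← hv] at h
  have h2 := congrArg (fun z => ((v⁻¹ : Γ(X, X.basicOpen f)ˣ) : Γ(X, X.basicOpen f)) • z) h
  simpa [smul_smul] using h2

/-- the map on sections as a linear map -/
noncomputable def apL {M N : X.Modules} (φ : M ⟶ N) (U : X.Opens) :
    Γ(M, U) →ₗ[Γ(X, U)] Γ(N, U) :=
  { ap φ U with map_smul' := fun r s => ap_smul φ U r s }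

@[simp] lemma apL_apply {M N : X.Modules} (φ : M ⟶ N) (U : X.Opens) (s : Γ(M, U)) :
    apL φ U s = ap φ U s := rfl

/-- `F` is supported on `U` and quasi-coherent there -/
structure QU (U : X.Opens) (F : X.Modules) : Prop where
  sup : ∀ (V : X.Opens) (s : Γ(F, V)) (x : X), x ∈ V → x ∉ U →
    ∃ (W : X.Opens) (h : W ≤ V), x ∈ W ∧ rs F h s = 0
  inj : ∀ (f : Γ(X, U)) (s : Γ(F, U)), rs F (X.basicOpen_le f) s = 0 → ∃ n : ℕ, f ^ n • s = 0
  surj : ∀ (f : Γ(X, U)) (t : Γ(F, X.basicOpen f)), ∃ (n : ℕ) (s : Γ(F, U)),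
    rs F (X.basicOpen_le f) s = rO (X.basicOpen_le f) f ^ n • t

section

variable {U : X.Opens} {F G : X.Modules}

lemma exists_basicOpen_mem (hU : IsAffineOpen U) {V : X.Opens} {x : X} (hxV : x ∈ V)
    (hxU : x ∈ U) : ∃ f : Γ(X, U), X.basicOpen f ≤ V ∧ x ∈ X.basicOpen f :=
  hU.exists_basicOpen_le (V := V) ⟨x, hxV⟩ hxU

/-- morphisms out of `F` are determined on `U` -/
lemma QU.hom_ext (hU : IsAffineOpen U) (hF : QU U F) {φ ψ : F ⟶ G}
    (h : ∀ s : Γ(F, U), ap φ U s = ap ψ U s) : φ = ψ := by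
  apply hom_ext'
  intro V s
  have key : ∀ x : V, ∃ (W : X.Opens) (hW : W ≤ V), x.1 ∈ W ∧
      ap φ W (rs F hW s) = ap ψ W (rs F hW s) := by
    rintro ⟨x, hx⟩
    by_cases hxU : x ∈ U
    · obtain ⟨f, hf, hxf⟩ := exists_basicOpen_mem hU hx hxU
      refine ⟨X.basicOpen f, hf, hxf, ?_⟩
      obtain ⟨n, a, ha⟩ := hF.surj f (rs F hf s)
      apply smul_pow_cancel f G n
      rw [← ap_smul, ← ap_smul, ← ha, ap_rs, ap_rs, h]
    · obtain ⟨W, hW, hxW, h0⟩ := hF.sup V s x hx hxU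
      exact ⟨W, hW, hxW, by rw [h0, map_zero, map_zero]⟩
  choose W hW hxW hs using key
  refine sec_ext G (U := W) hW (fun x hx => ?_) fun x => ?_
  · rw [Opens.mem_iSup]
    exact ⟨⟨x, hx⟩, hxW _⟩
  · rw [← ap_rs, ← ap_rs]
    exact hs x

/-- a morphism to `F` which is surjective on sections over `U` is an epimorphism -/
lemma QU.epi (hU : IsAffineOpen U) (hF : QU U F) {P : X.Modules} (p : P ⟶ F)
    (h : Function.Surjective (ap p U)) : Epi p := by
  apply epi_of_locally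
  intro V t x hx
  by_cases hxU : x ∈ U
  · obtain ⟨f, hf, hxf⟩ := exists_basicOpen_mem hU hx hxU
    refine ⟨X.basicOpen f, hf, hxf, ?_⟩
    obtain ⟨n, a, ha⟩ := hF.surj f (rs F hf t)
    obtain ⟨b, rfl⟩ := h a
    obtain ⟨v, hv⟩ := (qu_isUnit_rO f).pow n
    refine ⟨((v⁻¹ : Γ(X, X.basicOpen f)ˣ) : Γ(X, X.basicOpen f)) •
      rs P (X.basicOpen_le f) b, ?_⟩
    rw [ap_smul, ap_rs, ha, ← hv, smul_smul]
    simp
  · obtain ⟨W, hW, hxW, h0⟩ := hF.sup V t x hx hxU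
    exact ⟨W, hW, hxW, 0, by rw [h0, map_zero]⟩

/-- the kernel of a morphism, on sections -/
noncomputable def kerSub (φ : F ⟶ G) : SubSh F where
  car V := LinearMap.ker (apL φ V)
  res := by
    intro V V' h s hs
    rw [LinearMap.mem_ker, apL_apply] at *
    rw [ap_rs, hs, map_zero]
  loc := by
    intro V s hs
    rw [LinearMap.mem_ker, apL_apply]
    choose W hW hxW h0 using fun x : V => hs x.1 x.2
    refine sec_ext G (U := W) hW (fun x hx => ?_) fun x => ?_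
    · rw [Opens.mem_iSup]
      exact ⟨⟨x, hx⟩, hxW _⟩
    · have h1 := h0 x
      rw [LinearMap.mem_ker, apL_apply, ap_rs] at h1
      rw [h1, map_zero]

lemma mem_kerSub (φ : F ⟶ G) {V : X.Opens} (s : Γ(F, V)) :
    s ∈ (kerSub φ).car V ↔ ap φ V s = 0 := LinearMap.mem_ker

@[reassoc (attr := simp)]
lemma kerSub_comp (φ : F ⟶ G) : (kerSub φ).ι ≫ φ = 0 := by
  apply hom_ext'
  intro V s
  rw [ap_comp, ap_zero]
  exact (mem_kerSub φ _).1 ((kerSub φ).ι_mem s)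

lemma kerSub_shortExact (φ : F ⟶ G) [Epi φ] :
    (ShortComplex.mk (kerSub φ).ι φ (kerSub_comp φ)).ShortExact := by
  have hlift : ∀ {Z : X.Modules} (k : Z ⟶ F), k ≫ φ = 0 →
      ∃ l : Z ⟶ (kerSub φ).sh, l ≫ (kerSub φ).ι = k := by
    intro Z k hk
    refine ⟨(kerSub φ).lift k fun V t => ?_, SubSh.lift_ι _ _ _⟩
    rw [mem_kerSub, ← ap_comp, hk, ap_zero]
  have hex : (ShortComplex.mk (kerSub φ).ι φ (kerSub_comp φ)).Exact := by
    apply ShortComplex.exact_of_f_is_kernel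
    exact KernelFork.IsLimit.ofι _ _ (fun k hk => (hlift k hk).choose)
      (fun k hk => (hlift k hk).choose_spec)
      (fun k hk m hm => by
        rw [← cancel_mono (kerSub φ).ι]
        exact hm.trans (hlift k hk).choose_spec.symm)
  exact ShortComplex.ShortExact.mk' hex inferInstance inferInstance

lemma QU.kerSub (hF : QU U F) (hG : QU U G) (φ : F ⟶ G) : QU U (kerSub φ).sh where
  sup V s x hx hxU := by
    obtain ⟨W, hW, hxW, h0⟩ := hF.sup V (ap (Fdim.kerSub φ).ι V s) x hx hxU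
    refine ⟨W, hW, hxW, (Fdim.kerSub φ).ι_injective W ?_⟩
    rw [ap_rs, h0, map_zero]
  inj f s hs := by
    obtain ⟨n, hn⟩ := hF.inj f (ap (Fdim.kerSub φ).ι U s) (by rw [← ap_rs, hs, map_zero])
    refine ⟨n, (Fdim.kerSub φ).ι_injective U ?_⟩
    rw [ap_smul, hn, map_zero]
  surj f t := by
    obtain ⟨n, a, ha⟩ := hF.surj f (ap (Fdim.kerSub φ).ι _ t)
    have h1 : rs G (X.basicOpen_le f) (ap φ U a) = 0 := by
      rw [← ap_rs, ha, ap_smul, ← ap_comp, kerSub_comp, ap_zero, smul_zero]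
    obtain ⟨m, hm⟩ := hG.inj f _ h1
    have h2 : f ^ m • a ∈ (Fdim.kerSub φ).car U := by
      rw [mem_kerSub, ap_smul, hm]
    refine ⟨m + n, (Fdim.kerSub φ).mkS _ h2, (Fdim.kerSub φ).ι_injective _ ?_⟩
    rw [ap_rs, SubSh.ι_mkS, rs_smul, ha, ap_smul, smul_smul, pow_add, map_pow]

/-- sections of the kernel over `U` -/
noncomputable def kerSubEquiv (φ : F ⟶ G) (V : X.Opens) :
    Γ((Fdim.kerSub φ).sh, V) ≃ₗ[Γ(X, V)] LinearMap.ker (apL φ V) where
  toFun s := ⟨ap (Fdim.kerSub φ).ι V s, (Fdim.kerSub φ).ι_mem s⟩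
  invFun s := (Fdim.kerSub φ).mkS s.1 s.2
  left_inv s := (Fdim.kerSub φ).ι_injective V rfl
  right_inv s := Subtype.ext rfl
  map_add' a b := Subtype.ext (map_add _ _ _)
  map_smul' r a := Subtype.ext (ap_smul _ _ _ _)

/-! ### binary sums -/

lemma ap_total {A B : X.Modules} (V : X.Opens) (s : Γ(A ⊞ B, V)) :
    ap (biprod.inl : A ⟶ A ⊞ B) V (ap biprod.fst V s) +
      ap (biprod.inr : B ⟶ A ⊞ B) V (ap biprod.snd V s) = s := by
  rw [← ap_comp, ← ap_comp, ← ap_add, biprod.total, ap_id]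

lemma qu_biprod_sec_ext {A B : X.Modules} {V : X.Opens} {s t : Γ(A ⊞ B, V)}
    (h1 : ap (biprod.fst : A ⊞ B ⟶ A) V s = ap biprod.fst V t)
    (h2 : ap (biprod.snd : A ⊞ B ⟶ B) V s = ap biprod.snd V t) : s = t := by
  rw [← ap_total V s, ← ap_total V t, h1, h2]

lemma QU.biprod {A B : X.Modules} (hA : QU U A) (hB : QU U B) : QU U (A ⊞ B) where
  sup V s x hx hxU := by
    obtain ⟨W, hW, hxW, h0⟩ := hA.sup V (ap (biprod.fst : A ⊞ B ⟶ A) V s) x hx hxU
    obtain ⟨W', hW', hxW', h0'⟩ := hB.sup V (ap (biprod.snd : A ⊞ B ⟶ B) V s) x hx hxU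
    refine ⟨W ⊓ W', inf_le_left.trans hW, ⟨hxW, hxW'⟩, qu_biprod_sec_ext ?_ ?_⟩
    · rw [ap_rs, ← rs_rs A hW inf_le_left, h0, map_zero, map_zero]
    · have : rs B (inf_le_left.trans hW : W ⊓ W' ≤ V) (ap (biprod.snd : A ⊞ B ⟶ B) V s) =
          rs B (inf_le_right : W ⊓ W' ≤ W') (rs B hW' (ap (biprod.snd : A ⊞ B ⟶ B) V s)) := by
        rw [rs_rs]
      rw [ap_rs, this, h0', map_zero, map_zero]
  inj f s hs := by
    obtain ⟨n, hn⟩ := hA.inj f (ap (biprod.fst : A ⊞ B ⟶ A) U s) (by rw [← ap_rs, hs, map_zero])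
    obtain ⟨m, hm⟩ := hB.inj f (ap (biprod.snd : A ⊞ B ⟶ B) U s) (by rw [← ap_rs, hs, map_zero])
    refine ⟨n + m, qu_biprod_sec_ext ?_ ?_⟩
    · rw [ap_smul, map_zero, pow_add, mul_comm, ← smul_smul, hn, smul_zero]
    · rw [ap_smul, map_zero, pow_add, ← smul_smul, hm, smul_zero]
  surj f t := by
    obtain ⟨n, a, ha⟩ := hA.surj f (ap (biprod.fst : A ⊞ B ⟶ A) _ t)
    obtain ⟨m, b, hb⟩ := hB.surj f (ap (biprod.snd : A ⊞ B ⟶ B) _ t)
    refine ⟨n + m, f ^ m • ap (biprod.inl : A ⟶ A ⊞ B) U a +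
      f ^ n • ap (biprod.inr : B ⟶ A ⊞ B) U b, ?_⟩
    have e1 : rs (A ⊞ B) (X.basicOpen_le f) (ap (biprod.inl : A ⟶ A ⊞ B) U a) =
        rO (X.basicOpen_le f) f ^ n • ap (biprod.inl : A ⟶ A ⊞ B) _
          (ap (biprod.fst : A ⊞ B ⟶ A) _ t) := by
      rw [← ap_rs, ha, ap_smul]
    have e2 : rs (A ⊞ B) (X.basicOpen_le f) (ap (biprod.inr : B ⟶ A ⊞ B) U b) =
        rO (X.basicOpen_le f) f ^ m • ap (biprod.inr : B ⟶ A ⊞ B) _
          (ap (biprod.snd : A ⊞ B ⟶ B) _ t) := by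
      rw [← ap_rs, hb, ap_smul]
    rw [map_add, rs_smul, rs_smul, e1, e2, smul_smul, smul_smul, map_pow, map_pow, ← pow_add,
      ← pow_add, add_comm m n, ← smul_add, ap_total]

lemma sec_of_isZero {Z : X.Modules} (h : IsZero Z) {V : X.Opens} (s : Γ(Z, V)) : s = 0 := by
  have h1 : (𝟙 Z : Z ⟶ Z) = 0 := h.eq_of_src _ _
  rw [← ap_id Z V s, h1, ap_zero]

lemma QU.of_isZero {Z : X.Modules} (h : IsZero Z) : QU U Z where
  sup V s x hx _ := ⟨V, le_rfl, hx, by rw [rs_self]; exact sec_of_isZero h s⟩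
  inj f s _ := ⟨0, by rw [sec_of_isZero h s, smul_zero]⟩
  surj f t := ⟨0, 0, by rw [sec_of_isZero h t, smul_zero, map_zero]⟩

end

end Fdim
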