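import Mathlib

universe u

open CategoryTheory Limits AlgebraicGeometry TopologicalSpace Opposite

attribute [-instance] CategoryTheory.catToReflQuiver

namespace Fdim.Coh

noncomputable section

variable {X : Scheme.{u}}

/-- the sheaf of modules `j_! 𝒪_U`, as a functor of `U` -/
def Zf (X : Scheme.{u}) : X.Opens ⥤ X.Modules :=
  yoneda ⋙ PresheafOfModules.free X.ringCatSheaf.obj ⋙
    PresheafOfModules.sheafification (𝟙 X.ringCatSheaf.obj)

/-- morphisms from `Zf U` are sections over `U` -/
def zEquiv (U : X.Opens) (M : X.Modules) : ((Zf X).obj U ⟶ M) ≃ Γ(M, U) :=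
  (PresheafOfModules.sheafificationHomEquiv (𝟙 X.ringCatSheaf.obj)).trans
    PresheafOfModules.freeYonedaEquiv

/-- the tautological section -/
def zOne (U : X.Opens) : Γ((Zf X).obj U, U) := zEquiv U _ (𝟙 _)

lemma zEquiv_comp {U : X.Opens} {M N : X.Modules} (f : (Zf X).obj U ⟶ M) (g : M ⟶ N) :
    zEquiv U N (f ≫ g) = g.app U (zEquiv U M f) := by
  rfl

lemma zEquiv_apply {U : X.Opens} {M : X.Modules} (f : (Zf X).obj U ⟶ M) :
    zEquiv U M f = f.app U (zOne U) := by
  rw [zOne, ← zEquiv_comp, Category.id_comp]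

lemma zEquiv_add {U : X.Opens} {M : X.Modules} (f g : (Zf X).obj U ⟶ M) :
    zEquiv U M (f + g) = zEquiv U M f + zEquiv U M g := by
  simp only [zEquiv_apply, Scheme.Modules.Hom.add_app]
  rfl

lemma freeYonedaEquiv_map {C : Type u} [Category.{u} C] {R : Cᵒᵖ ⥤ RingCat.{u}}
    {M : PresheafOfModules.{u} R} {U V : C} (i : U ⟶ V)
    (f : (PresheafOfModules.free R).obj (yoneda.obj V) ⟶ M) :
    PresheafOfModules.freeYonedaEquiv ((PresheafOfModules.free R).map (yoneda.map i) ≫ f)
      = M.map i.op (PresheafOfModules.freeYonedaEquiv f) := by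
  have h := (PresheafOfModules.freeAdjunction R).homEquiv_naturality_left (yoneda.map i) f
  have h2 := congrArg yonedaEquiv h
  rw [← yonedaEquiv_naturality] at h2
  simp only [PresheafOfModules.freeAdjunction_homEquiv] at h2
  exact h2

lemma zEquiv_map {U V : X.Opens} (i : U ⟶ V) {M : X.Modules} (f : (Zf X).obj V ⟶ M) :
    zEquiv U M ((Zf X).map i ≫ f) = M.presheaf.map i.op (zEquiv V M f) := by
  have h := (PresheafOfModules.sheafificationAdjunction (𝟙 X.ringCatSheaf.obj)).homEquiv_naturality_left
    ((PresheafOfModules.free X.ringCatSheaf.obj).map (yoneda.map i)) f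
  have h2 := congrArg PresheafOfModules.freeYonedaEquiv h
  refine h2.trans ?_
  exact freeYonedaEquiv_map i _

instance {U V : X.Opens} (i : U ⟶ V) : Mono ((Zf X).map i) := by
  have h1 : Mono ((PresheafOfModules.free X.ringCatSheaf.obj).map (yoneda.map i)) := by
    apply PresheafOfModules.mono_of_injective
    intro W
    change Function.Injective ((ModuleCat.free _).map ((yoneda.map i).app W)).hom
    intro a b hab
    exact Finsupp.mapDomain_injective (f := (yoneda.map i).app W)
      (fun p q _ => Subsingleton.elim (α := W.unop ⟶ U) p q) hab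
  change Mono ((PresheafOfModules.sheafification (𝟙 X.ringCatSheaf.obj)).map _)
  exact Functor.map_mono _ _

lemma sec_ext {M : X.Modules} {U V W : X.Opens} (i : U ⟶ W) (j : V ⟶ W) (h : W ≤ U ⊔ V)
    {s t : Γ(M, W)} (h1 : M.presheaf.map i.op s = M.presheaf.map i.op t)
    (h2 : M.presheaf.map j.op s = M.presheaf.map j.op t) : s = t :=
  TopCat.Sheaf.eq_of_locally_eq₂ ⟨M.presheaf, M.isSheaf⟩ i j h s t h1 h2

lemma sec_glue {M : X.Modules} {U V W : X.Opens} (i : U ⟶ W) (j : V ⟶ W) (h : W ≤ U ⊔ V)
    (a : Γ(M, U)) (b : Γ(M, V))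
    (hab : M.presheaf.map (homOfLE (inf_le_left : U ⊓ V ≤ U)).op a
      = M.presheaf.map (homOfLE (inf_le_right : U ⊓ V ≤ V)).op b) :
    ∃ s : Γ(M, W), M.presheaf.map i.op s = a ∧ M.presheaf.map j.op s = b := by
  let F : Bool → X.Opens := fun c => cond c U V
  have := TopCat.Sheaf.existsUnique_gluing' ⟨M.presheaf, M.isSheaf⟩ F W
    (fun c => match c with
      | true => i
      | false => j)
    (h.trans (sup_le (le_iSup F true) (le_iSup F false)))
    (fun c => match c with
      | true => a
      | false => b) (by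
      intro c d
      match c, d with
      | true, true => rfl
      | false, false => rfl
      | true, false => exact hab
      | false, true =>
        have e : (Opens.infLELeft (F false) (F true)) =
          homOfLE (by exact inf_comm _ _ |>.le) ≫ homOfLE (inf_le_right : U ⊓ V ≤ V) := rfl
        have e' : (Opens.infLERight (F false) (F true)) =
          homOfLE (by exact inf_comm _ _ |>.le) ≫ homOfLE (inf_le_left : U ⊓ V ≤ U) := rfl
        rw [e, e', op_comp, op_comp, Functor.map_comp, Functor.map_comp]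
        exact congrArg (M.presheaf.map (homOfLE (by exact inf_comm _ _ |>.le)).op) hab.symm)
  obtain ⟨s, hs, -⟩ := this
  exact ⟨s, hs true, hs false⟩

/-- the short complex of the Mayer-Vietoris sequence of two open sets -/
abbrev mvComplex (U V : X.Opens) : ShortComplex X.Modules where
  X₁ := (Zf X).obj (U ⊓ V)
  X₂ := (Zf X).obj U ⊞ (Zf X).obj V
  X₃ := (Zf X).obj (U ⊔ V)
  f := biprod.lift ((Zf X).map (homOfLE inf_le_left)) (-(Zf X).map (homOfLE inf_le_right))
  g := biprod.desc ((Zf X).map (homOfLE le_sup_left)) ((Zf X).map (homOfLE le_sup_right))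
  zero := by
    rw [biprod.lift_desc, Preadditive.neg_comp, ← Functor.map_comp, ← Functor.map_comp]
    simp only [homOfLE_comp, add_neg_cancel]

lemma mv_mono (U V : X.Opens) : Mono (mvComplex U V).f := by
  have h : Mono ((mvComplex U V).f ≫ biprod.fst) := by
    simp only [mvComplex, biprod.lift_fst]
    infer_instance
  exact mono_of_mono _ biprod.fst

lemma hom_ext_z {U V W : X.Opens} (i : U ⟶ W) (j : V ⟶ W) (h : W ≤ U ⊔ V) {M : X.Modules}
    {f g : (Zf X).obj W ⟶ M} (h1 : (Zf X).map i ≫ f = (Zf X).map i ≫ g)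
    (h2 : (Zf X).map j ≫ f = (Zf X).map j ≫ g) : f = g := by
  apply (zEquiv W M).injective
  apply sec_ext i j h
  · rw [← zEquiv_map, ← zEquiv_map, h1]
  · rw [← zEquiv_map, ← zEquiv_map, h2]

lemma mv_epi (U V : X.Opens) : Epi (mvComplex U V).g := by
  constructor
  intro M f g hfg
  apply hom_ext_z (homOfLE le_sup_left) (homOfLE le_sup_right) le_rfl
  · have := congrArg (fun t => biprod.inl ≫ t) hfg
    simpa only [biprod.inl_desc_assoc] using this
  · have := congrArg (fun t => biprod.inr ≫ t) hfg
    simpa only [biprod.inr_desc_assoc] using this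

lemma mv_lift (U V : X.Opens) {M : X.Modules} (k : (Zf X).obj U ⊞ (Zf X).obj V ⟶ M)
    (hk : (mvComplex U V).f ≫ k = 0) : ∃ l : (Zf X).obj (U ⊔ V) ⟶ M, (mvComplex U V).g ≫ l = k := by
  obtain ⟨s, hs1, hs2⟩ := sec_glue (M := M) (homOfLE (le_sup_left : U ≤ U ⊔ V)) (homOfLE le_sup_right) le_rfl
    (zEquiv U M (biprod.inl ≫ k)) (zEquiv V M (biprod.inr ≫ k)) (by
      rw [← zEquiv_map, ← zEquiv_map]
      congr 1
      have h : (mvComplex U V).f ≫ k = (Zf X).map (homOfLE inf_le_left) ≫ biprod.inl ≫ k
        - (Zf X).map (homOfLE inf_le_right) ≫ biprod.inr ≫ k := by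
        simp only [mvComplex]
        rw [biprod.lift_eq]
        simp [sub_eq_add_neg]
      rw [h] at hk
      exact sub_eq_zero.1 hk)
  refine ⟨(zEquiv _ M).symm s, ?_⟩
  apply biprod.hom_ext'
  · simp only [mvComplex, biprod.inl_desc_assoc]
    apply (zEquiv U M).injective
    rw [zEquiv_map, Equiv.apply_symm_apply, hs1]
  · simp only [mvComplex, biprod.inr_desc_assoc]
    apply (zEquiv V M).injective
    rw [zEquiv_map, Equiv.apply_symm_apply, hs2]

/-- **Mayer-Vietoris**: the sequence `0 → Z_{U ∩ V} → Z_U ⊕ Z_V → Z_{U ∪ V} → 0` is exact -/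
lemma mv_shortExact (U V : X.Opens) : (mvComplex U V).ShortExact := by
  have := mv_mono U V
  have := mv_epi U V
  have hex : (mvComplex U V).Exact := by
    apply ShortComplex.exact_of_g_is_cokernel
    exact CokernelCofork.IsColimit.ofπ _ _ (fun k hk => (mv_lift U V k hk).choose)
      (fun k hk => (mv_lift U V k hk).choose_spec)
      (fun k hk m hm => by
        rw [← cancel_epi (mvComplex U V).g, hm, (mv_lift U V k hk).choose_spec])
  exact ShortComplex.ShortExact.mk hex

end

end Fdim.Coh
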