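import Pool.Agent.Work.MP_f714fc_ag.Tw.MkB
import Pool.Agent.Work.MP_f714fc_ag.Coh.Zf

/-!
# Subsheaves of modules given by local conditions; sections supported in an open set

`SubSh M` : subsheaf of modules of `M`, given by submodules of sections stable under restriction
and local.  `supU M U` : sections vanishing near every point outside `U` (extension by zero of
the restriction of `M` to `U`, as a subsheaf of `M`).  Mayer-Vietoris sequence.
-/

open CategoryTheory Limits TopologicalSpace AlgebraicGeometry Opposite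

attribute [-instance] CategoryTheory.catToReflQuiver

universe u

namespace Fdim

variable {X : Scheme.{u}}

/-- a subsheaf of modules -/
structure SubSh (M : X.Modules) where
  /-- the sections -/
  car : ∀ U : X.Opens, Submodule Γ(X, U) Γ(M, U)
  res : ∀ {U V : X.Opens} (h : V ≤ U) (s : Γ(M, U)), s ∈ car U → rs M h s ∈ car V
  loc : ∀ {U : X.Opens} (s : Γ(M, U)), (∀ x ∈ U, ∃ (V : X.Opens) (h : V ≤ U), x ∈ V ∧
    rs M h s ∈ car V) → s ∈ car U

namespace SubSh

variable {M : X.Modules}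

/-- data of the subsheaf -/
noncomputable def secData (P : SubSh M) : SecData X where
  sec U := P.car U
  grp U := inferInstance
  mod U := inferInstance
  res {U V} h :=
    { toFun := fun s => ⟨rs M h s.1, P.res h s.1 s.2⟩
      map_zero' := by apply Subtype.ext; simp
      map_add' := fun a b => by apply Subtype.ext; simp }
  res_self h s := by apply Subtype.ext; simp
  res_res h h' s := by apply Subtype.ext; simp
  res_smul h r s := by
    apply Subtype.ext
    exact rs_smul M h r s.1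
  glue {ι} U s hs := by
    obtain ⟨t, ht⟩ := exists_glue M (V := ⨆ i, U i) (U := U) (fun i => le_iSup U i) le_rfl
      (fun i => (s i).1) (fun i j => congrArg Subtype.val (hs i j))
    refine ⟨⟨t, P.loc t fun x hx => ?_⟩, fun i => Subtype.ext (ht i), ?_⟩
    · obtain ⟨i, hi⟩ := Opens.mem_iSup.1 hx
      exact ⟨U i, le_iSup U i, hi, by rw [ht i]; exact (s i).2⟩
    · intro t' ht'
      apply Subtype.ext
      exact sec_ext M (V := ⨆ i, U i) (U := U) (fun i => le_iSup U i) le_rfl
        (fun i => (congrArg Subtype.val (ht' i)).trans (ht i).symm)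

/-- the subsheaf as a sheaf of modules -/
noncomputable def sh (P : SubSh M) : X.Modules := P.secData.shf

/-- the inclusion -/
noncomputable def ι (P : SubSh M) : P.sh ⟶ M :=
  homMk' (M := P.sh) (N := M) (fun U => ((P.car U).subtype.toAddMonoidHom : P.car U →+ Γ(M, U)))
    (fun _ _ _ => rfl) (fun _ _ => rfl)

lemma ι_injective (P : SubSh M) (U : X.Opens) : Function.Injective (ap P.ι U) :=
  fun _ _ h => Subtype.ext h

lemma ι_mem (P : SubSh M) {U : X.Opens} (s : Γ(P.sh, U)) : ap P.ι U s ∈ P.car U :=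
  (P.secData.ofS s).2

/-- a section of the subsheaf -/
noncomputable def mkS (P : SubSh M) {U : X.Opens} (s : Γ(M, U)) (hs : s ∈ P.car U) :
    Γ(P.sh, U) := P.secData.toS ⟨s, hs⟩

@[simp] lemma ι_mkS (P : SubSh M) {U : X.Opens} (s : Γ(M, U)) (hs : s ∈ P.car U) :
    ap P.ι U (P.mkS s hs) = s := rfl

instance (P : SubSh M) : Mono P.ι := mono_of_injective P.ι P.ι_injective

/-- lift of a morphism -/
noncomputable def lift (P : SubSh M) {T : X.Modules} (φ : T ⟶ M)
    (h : ∀ U t, ap φ U t ∈ P.car U) : T ⟶ P.sh :=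
  homMk' (M := T) (N := P.sh)
    (fun U => ({ toFun := fun t => P.mkS (ap φ U t) (h U t)
                 map_zero' := by
                  apply P.ι_injective; simp
                 map_add' := fun a b => by
                  apply P.ι_injective; simp } : Γ(T, U) →+ Γ(P.sh, U)))
    (fun U r s => by
      apply P.ι_injective
      rw [ap_smul]
      show ap φ U (r • s) = r • ap φ U s
      rw [ap_smul])
    (fun h' s => by
      apply P.ι_injective
      rw [ap_rs]
      exact ap_rs φ h' s)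

@[reassoc (attr := simp)]
lemma lift_ι (P : SubSh M) {T : X.Modules} (φ : T ⟶ M) (h : ∀ U t, ap φ U t ∈ P.car U) :
    P.lift φ h ≫ P.ι = φ := by
  apply hom_ext'
  intro U s
  rfl

/-- inclusion of subsheaves -/
noncomputable def incl (P Q : SubSh M) (h : ∀ U, P.car U ≤ Q.car U) : P.sh ⟶ Q.sh :=
  Q.lift P.ι fun U t => h U (P.ι_mem t)

@[reassoc (attr := simp)]
lemma incl_ι (P Q : SubSh M) (h : ∀ U, P.car U ≤ Q.car U) : incl P Q h ≫ Q.ι = P.ι :=
  lift_ι _ _ _

instance (P Q : SubSh M) (h : ∀ U, P.car U ≤ Q.car U) : Mono (incl P Q h) := by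
  have : Mono (incl P Q h ≫ Q.ι) := by rw [incl_ι]; infer_instance
  exact mono_of_mono _ Q.ι

/-- the short complex of two subsheaves -/
noncomputable abbrev mv (P Q N T : SubSh M) (hP : ∀ U, P.car U ≤ N.car U)
    (hQ : ∀ U, Q.car U ≤ N.car U) (hTP : ∀ U, T.car U ≤ P.car U)
    (hTQ : ∀ U, T.car U ≤ Q.car U) : ShortComplex X.Modules where
  X₁ := T.sh
  X₂ := P.sh ⊞ Q.sh
  X₃ := N.sh
  f := biprod.lift (incl T P hTP) (-(incl T Q hTQ))
  g := biprod.desc (incl P N hP) (incl Q N hQ)
  zero := by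
    rw [← cancel_mono N.ι, biprod.lift_desc]
    simp

/-- Mayer-Vietoris for subsheaves -/
lemma mv_shortExact (P Q N T : SubSh M) (hP : ∀ U, P.car U ≤ N.car U)
    (hQ : ∀ U, Q.car U ≤ N.car U) (hTP : ∀ U, T.car U ≤ P.car U)
    (hTQ : ∀ U, T.car U ≤ Q.car U) (hT : ∀ U s, s ∈ P.car U → s ∈ Q.car U → s ∈ T.car U)
    (hN : ∀ (U : X.Opens) (s : Γ(M, U)), s ∈ N.car U → ∀ x ∈ U, ∃ (V : X.Opens) (h : V ≤ U),
      x ∈ V ∧ (rs M h s ∈ P.car V ∨ rs M h s ∈ Q.car V)) :
    (mv P Q N T hP hQ hTP hTQ).ShortExact := by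
  have hmono : Mono (mv P Q N T hP hQ hTP hTQ).f := by
    have h : Mono ((mv P Q N T hP hQ hTP hTQ).f ≫ biprod.fst) := by
      simp only [mv, biprod.lift_fst]
      infer_instance
    exact mono_of_mono _ biprod.fst
  have hepi : Epi (mv P Q N T hP hQ hTP hTQ).g := by
    apply epi_of_locally
    intro U t x hx
    obtain ⟨V, hV, hxV, h⟩ := hN U (ap N.ι U t) (N.ι_mem t) x hx
    refine ⟨V, hV, hxV, ?_⟩
    rcases h with h | h
    · refine ⟨ap (biprod.inl : P.sh ⟶ P.sh ⊞ Q.sh) V (P.mkS _ h), ?_⟩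
      rw [← ap_comp, biprod.inl_desc]
      apply N.ι_injective
      rw [← ap_comp, incl_ι, ι_mkS, ap_rs]
    · refine ⟨ap (biprod.inr : Q.sh ⟶ P.sh ⊞ Q.sh) V (Q.mkS _ h), ?_⟩
      rw [← ap_comp, biprod.inr_desc]
      apply N.ι_injective
      rw [← ap_comp, incl_ι, ι_mkS, ap_rs]
  have hlift : ∀ {Z : X.Modules} (k : Z ⟶ P.sh ⊞ Q.sh),
      k ≫ (mv P Q N T hP hQ hTP hTQ).g = 0 →
      ∃ l : Z ⟶ T.sh, l ≫ (mv P Q N T hP hQ hTP hTQ).f = k := by
    intro Z k hk
    have h1 : k ≫ biprod.fst ≫ P.ι = -(k ≫ biprod.snd ≫ Q.ι) := by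
      have h2 : k ≫ (mv P Q N T hP hQ hTP hTQ).g ≫ N.ι = 0 := by
        rw [← Category.assoc, hk, zero_comp]
      have h3 : (mv P Q N T hP hQ hTP hTQ).g ≫ N.ι = biprod.fst ≫ P.ι + biprod.snd ≫ Q.ι := by
        apply biprod.hom_ext'
        · simp [mv]
        · simp [mv]
      rw [h3, Preadditive.comp_add] at h2
      exact eq_neg_of_add_eq_zero_left h2
    have hmem : ∀ U t, ap (k ≫ biprod.fst ≫ P.ι) U t ∈ T.car U := by
      intro U t
      apply hT
      · exact P.ι_mem (ap (k ≫ biprod.fst) U t)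
      · rw [h1]
        have : ap (-(k ≫ biprod.snd ≫ Q.ι)) U t = -(ap Q.ι U (ap (k ≫ biprod.snd) U t)) := by
          have h4 : ap (-(k ≫ biprod.snd ≫ Q.ι)) U t + ap (k ≫ biprod.snd ≫ Q.ι) U t = 0 := by
            rw [← ap_add, neg_add_cancel, ap_zero]
          exact eq_neg_of_add_eq_zero_left h4
        rw [this]
        exact (Q.car U).neg_mem (Q.ι_mem _)
    refine ⟨T.lift _ hmem, ?_⟩
    apply biprod.hom_ext
    · rw [← cancel_mono P.ι]
      simp [mv]
    · rw [← cancel_mono Q.ι]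
      simp only [mv, Category.assoc, biprod.lift_snd, Preadditive.neg_comp,
        Preadditive.comp_neg, incl_ι, lift_ι, h1, neg_neg]
  have hex : (mv P Q N T hP hQ hTP hTQ).Exact := by
    apply ShortComplex.exact_of_f_is_kernel
    exact KernelFork.IsLimit.ofι _ _ (fun k hk => (hlift k hk).choose)
      (fun k hk => (hlift k hk).choose_spec)
      (fun k hk m hm => by
        rw [← cancel_mono (mv P Q N T hP hQ hTP hTQ).f, hm, (hlift k hk).choose_spec])
  exact ShortComplex.ShortExact.mk hex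

end SubSh

/-! ### sections supported in an open set -/

/-- sections of `M` vanishing near every point outside `U` -/
noncomputable def supU (M : X.Modules) (U : X.Opens) : SubSh M where
  car V :=
    { carrier := {s | ∀ x ∈ V, x ∉ U → ∃ (W : X.Opens) (h : W ≤ V), x ∈ W ∧ rs M h s = 0}
      zero_mem' := fun x hx _ => ⟨V, le_rfl, hx, map_zero _⟩
      add_mem' := by
        intro a b ha hb x hx hxU
        obtain ⟨W, hW, hxW, h1⟩ := ha x hx hxU
        obtain ⟨W', hW', hxW', h2⟩ := hb x hx hxU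
        refine ⟨W ⊓ W', inf_le_left.trans hW, ⟨hxW, hxW'⟩, ?_⟩
        rw [map_add, ← rs_rs M hW inf_le_left, h1, map_zero, zero_add]
        have : rs M (inf_le_left.trans hW : W ⊓ W' ≤ V) b =
          rs M (inf_le_right : W ⊓ W' ≤ W') (rs M hW' b) := by rw [rs_rs]
        rw [this, h2, map_zero]
      smul_mem' := by
        intro r s hs x hx hxU
        obtain ⟨W, hW, hxW, h1⟩ := hs x hx hxU
        exact ⟨W, hW, hxW, by rw [rs_smul, h1, smul_zero]⟩ }
  res := by
    intro V V' h s hs x hx hxU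
    obtain ⟨W, hW, hxW, h1⟩ := hs x (h hx) hxU
    refine ⟨W ⊓ V', inf_le_right, ⟨hxW, hx⟩, ?_⟩
    rw [rs_rs]
    have : rs M (inf_le_right.trans h : W ⊓ V' ≤ V) s =
      rs M (inf_le_left : W ⊓ V' ≤ W) (rs M hW s) := by rw [rs_rs]
    rw [this, h1, map_zero]
  loc := by
    intro V s hs x hx hxU
    obtain ⟨V', hV', hxV', h1⟩ := hs x hx
    obtain ⟨W, hW, hxW, h2⟩ := h1 x hxV' hxU
    exact ⟨W, hW.trans hV', hxW, by rw [← h2, rs_rs]⟩

lemma mem_supU {M : X.Modules} {U V : X.Opens} (s : Γ(M, V)) :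
    s ∈ (supU M U).car V ↔
      ∀ x ∈ V, x ∉ U → ∃ (W : X.Opens) (h : W ≤ V), x ∈ W ∧ rs M h s = 0 := Iff.rfl

lemma mem_supU_of_le {M : X.Modules} {U V : X.Opens} (h : V ≤ U) (s : Γ(M, V)) :
    s ∈ (supU M U).car V := fun _ hx hxU => absurd (h hx) hxU

lemma supU_mono (M : X.Modules) {U U' : X.Opens} (h : U ≤ U') (V : X.Opens) :
    (supU M U).car V ≤ (supU M U').car V := fun _ hs x hx hxU => hs x hx fun h' => hxU (h h')

/-- Mayer-Vietoris for `M_U` -/
lemma supU_mv (M : X.Modules) (U V : X.Opens) :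
    (SubSh.mv (supU M U) (supU M V) (supU M (U ⊔ V)) (supU M (U ⊓ V))
      (supU_mono M le_sup_left) (supU_mono M le_sup_right) (supU_mono M inf_le_left)
      (supU_mono M inf_le_right)).ShortExact := by
  apply SubSh.mv_shortExact
  · intro W s h1 h2 x hx hxU
    by_cases h : x ∈ U
    · exact h2 x hx fun h' => hxU ⟨h, h'⟩
    · exact h1 x hx h
  · intro W s hs x hx
    by_cases h : x ∈ U
    · exact ⟨W ⊓ U, inf_le_left, ⟨hx, h⟩, Or.inl (mem_supU_of_le inf_le_right _)⟩
    · by_cases h' : x ∈ V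
      · exact ⟨W ⊓ V, inf_le_left, ⟨hx, h'⟩, Or.inr (mem_supU_of_le inf_le_right _)⟩
      · obtain ⟨W', hW', hxW', h0⟩ := hs x hx (fun h'' => by
          rcases h'' with h'' | h''
          · exact h h''
          · exact h' h'')
        exact ⟨W', hW', hxW', Or.inl (by rw [h0]; exact Submodule.zero_mem _)⟩

instance (M : X.Modules) : IsIso (supU M ⊤).ι := by
  apply isIso_of_bijective
  intro V
  exact ⟨SubSh.ι_injective _ V, fun t => ⟨(supU M ⊤).mkS t (mem_supU_of_le le_top t), rfl⟩⟩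

/-- `M_X = M` -/
noncomputable def supUTopIso (M : X.Modules) : (supU M ⊤).sh ≅ M := asIso (supU M ⊤).ι

end Fdim
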