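import Pool.Agent.Work.MP_f714fc_ag.Coh.Cover
import Pool.Agent.Work.MP_f714fc_ag.Sch.Charts

/-!
# The two covers of the surfaces `Y(A, t)` and vanishing in degrees `≥ 3`
-/

universe w u

open CategoryTheory Limits AlgebraicGeometry TopologicalSpace Opposite Abelian

attribute [-instance] CategoryTheory.catToReflQuiver

namespace Fdim.YCharts

noncomputable section

variable {A : CommRingCat.{0}} {t : A} {X : Scheme.{0}} {π : X ⟶ Spec A} (Y : YCharts A t π)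

include Y

lemma w0 : Y.U 0 ⊓ (Y.U 2 ⊔ Y.U 3) = X.basicOpen (Y.x 0) := by
  rw [inf_sup_left, Y.b02, Y.b03, X.basicOpen_mul]
  exact sup_eq_left.2 inf_le_left

lemma w2 : Y.U 2 ⊓ (Y.U 0 ⊔ Y.U 1) = X.basicOpen (Y.x 2) := by
  rw [inf_sup_left, inf_comm, Y.b20, inf_comm, Y.b21, X.basicOpen_mul]
  exact sup_eq_left.2 inf_le_left

lemma w1 : Y.U 1 ⊓ (Y.U 2 ⊔ Y.U 3) = X.basicOpen (Y.x 1) := by
  rw [inf_sup_left, Y.b12, Y.b13, X.basicOpen_mul, X.basicOpen_mul, ← inf_sup_left]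
  apply le_antisymm inf_le_left
  refine le_inf le_rfl ?_
  have h : Y.x 1 = (Y.x 1 + str π _ t * Y.y 1) + (-str π _ t) * Y.y 1 := by ring
  calc X.basicOpen (Y.x 1) = X.basicOpen ((Y.x 1 + str π _ t * Y.y 1) + (-str π _ t) * Y.y 1) := by
        rw [← h]
    _ ≤ _ := X.basicOpen_add_le _ _
    _ ≤ _ := by
        rw [sup_comm]
        refine sup_le_sup ?_ le_rfl
        rw [X.basicOpen_mul]
        exact inf_le_right

lemma w3 : Y.U 3 ⊓ (Y.U 0 ⊔ Y.U 1) = X.basicOpen (Y.x 3) := by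
  rw [inf_sup_left, inf_comm, Y.b30, inf_comm (Y.U 3) (Y.U 1), Y.b31, X.basicOpen_mul,
    X.basicOpen_mul, ← inf_sup_left]
  apply le_antisymm inf_le_left
  refine le_inf le_rfl ?_
  have h : Y.x 3 = (Y.x 3 - str π _ t * Y.y 3) + (str π _ t) * Y.y 3 := by ring
  calc X.basicOpen (Y.x 3) = X.basicOpen ((Y.x 3 - str π _ t * Y.y 3) + (str π _ t) * Y.y 3) := by
        rw [← h]
    _ ≤ _ := X.basicOpen_add_le _ _
    _ ≤ _ := by
        rw [sup_comm]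
        refine sup_le_sup ?_ le_rfl
        rw [X.basicOpen_mul]
        exact inf_le_right

/-- the overlap of the two halves -/
lemma w01 : X.basicOpen (Y.x 0) ⊔ X.basicOpen (Y.x 1) = (Y.U 0 ⊔ Y.U 1) ⊓ (Y.U 2 ⊔ Y.U 3) := by
  rw [← Y.w0, ← Y.w1, inf_sup_right]

lemma w23 : X.basicOpen (Y.x 2) ⊔ X.basicOpen (Y.x 3) = (Y.U 0 ⊔ Y.U 1) ⊓ (Y.U 2 ⊔ Y.U 3) := by
  rw [← Y.w2, ← Y.w3, ← inf_sup_right, inf_comm]

/-- the overlap of the two charts of the overlap -/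
lemma wi : X.basicOpen (Y.x 0) ⊓ X.basicOpen (Y.x 1) = X.basicOpen (Y.x 0 * Y.y 0) := by
  rw [X.basicOpen_mul, ← Y.b01, ← Y.w1, ← Y.w0]
  ac_rfl

lemma cover4 : Y.U 0 ⊔ Y.U 1 ⊔ (Y.U 2 ⊔ Y.U 3) = ⊤ := by
  rw [← Y.cover]
  apply le_antisymm
  · exact sup_le (sup_le (le_iSup _ _) (le_iSup _ _)) (sup_le (le_iSup _ _) (le_iSup _ _))
  · refine iSup_le fun i => ?_
    fin_cases i
    · exact le_sup_left.trans le_sup_left
    · exact le_sup_right.trans le_sup_left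
    · exact le_sup_left.trans le_sup_right
    · exact le_sup_right.trans le_sup_right

lemma aff01 : IsAffineOpen (Y.U 0 ⊓ Y.U 1) := by
  rw [Y.b01]; exact (Y.aff 0).basicOpen _

lemma aff23 : IsAffineOpen (Y.U 2 ⊓ Y.U 3) := by
  rw [Y.b23]; exact (Y.aff 2).basicOpen _

lemma affw0 : IsAffineOpen (X.basicOpen (Y.x 0)) := (Y.aff 0).basicOpen _
lemma affw1 : IsAffineOpen (X.basicOpen (Y.x 1)) := (Y.aff 1).basicOpen _
lemma affwi : IsAffineOpen (X.basicOpen (Y.x 0) ⊓ X.basicOpen (Y.x 1)) := by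
  rw [Y.wi]; exact (Y.aff 0).basicOpen _

open Coh

/-- the cohomology of quasi-coherent modules on `Y` vanishes in degrees `≥ 3` -/
theorem hvan_three [HasExt.{w} X.Modules] (M : X.Modules) [M.IsQuasicoherent] {n : ℕ}
    (hn : 3 ≤ n) : HVan (⊤ : X.Opens) M n :=
  (HVan.four (Y.aff 0) (Y.aff 1) (Y.aff 2) (Y.aff 3) Y.aff01 Y.aff23 Y.affw0 Y.affw1 Y.affwi
    Y.w01 M hn).congr Y.cover4

/-- on the two halves -/
theorem hvan_left [HasExt.{w} X.Modules] (M : X.Modules) [M.IsQuasicoherent] {n : ℕ}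
    (hn : 2 ≤ n) : HVan (Y.U 0 ⊔ Y.U 1) M n := by
  obtain ⟨m, rfl⟩ : ∃ m, n = m + 1 + 1 := ⟨n - 2, by omega⟩
  exact HVan.sup (HVan.affine Y.aff01 M (by omega)) (HVan.affine (Y.aff 0) M (by omega))
    (HVan.affine (Y.aff 1) M (by omega))

theorem hvan_right [HasExt.{w} X.Modules] (M : X.Modules) [M.IsQuasicoherent] {n : ℕ}
    (hn : 2 ≤ n) : HVan (Y.U 2 ⊔ Y.U 3) M n := by
  obtain ⟨m, rfl⟩ : ∃ m, n = m + 1 + 1 := ⟨n - 2, by omega⟩
  exact HVan.sup (HVan.affine Y.aff23 M (by omega)) (HVan.affine (Y.aff 2) M (by omega))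
    (HVan.affine (Y.aff 3) M (by omega))

theorem hvan_mid [HasExt.{w} X.Modules] (M : X.Modules) [M.IsQuasicoherent] {n : ℕ}
    (hn : 2 ≤ n) : HVan ((Y.U 0 ⊔ Y.U 1) ⊓ (Y.U 2 ⊔ Y.U 3)) M n := by
  obtain ⟨m, rfl⟩ : ∃ m, n = m + 1 + 1 := ⟨n - 2, by omega⟩
  exact (HVan.sup (HVan.affine Y.affwi M (by omega)) (HVan.affine Y.affw0 M (by omega))
    (HVan.affine Y.affw1 M (by omega))).congr Y.w01

end

end Fdim.YCharts
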