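import Pool.Agent.Work.MP_f714fc_ag.Coh.QU

/-!
# The sheaf `Zf U` (extension by zero of the structure sheaf of `U`) and its sections
-/

open CategoryTheory Limits TopologicalSpace AlgebraicGeometry Opposite

attribute [-instance] CategoryTheory.catToReflQuiver

universe u

namespace Fdim

open Coh

variable {X : Scheme.{u}}

/-- the structure sheaf as a sheaf of modules -/
noncomputable def unitM (X : Scheme.{u}) : X.Modules := SheafOfModules.unit X.ringCatSheaf

/-- a function as a section of the structure sheaf -/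
noncomputable def toU {U : X.Opens} (r : Γ(X, U)) : Γ(unitM X, U) := r

/-- a section of the structure sheaf as a function -/
noncomputable def ofU {U : X.Opens} (r : Γ(unitM X, U)) : Γ(X, U) := r

lemma toU_injective {U : X.Opens} {r s : Γ(X, U)} (h : toU r = toU s) : r = s := h

@[simp] lemma toU_ofU {U : X.Opens} (r : Γ(unitM X, U)) : toU (ofU r) = r := rfl

@[simp] lemma ofU_toU {U : X.Opens} (r : Γ(X, U)) : ofU (toU r) = r := rfl

lemma smul_toU {U : X.Opens} (r s : Γ(X, U)) : r • toU s = toU (r * s) := rfl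

lemma rs_toU {U V : X.Opens} (h : V ≤ U) (s : Γ(X, U)) :
    rs (unitM X) h (toU s) = toU (rO h s) := rfl

@[simp] lemma toU_zero {U : X.Opens} : toU (0 : Γ(X, U)) = 0 := rfl

lemma zEquiv_ap {U : X.Opens} {M N : X.Modules} (f : (Zf X).obj U ⟶ M) (g : M ⟶ N) :
    zEquiv U N (f ≫ g) = ap g U (zEquiv U M f) := zEquiv_comp f g

lemma ap_zOne {U : X.Opens} {M : X.Modules} (f : (Zf X).obj U ⟶ M) :
    ap f U (zOne U) = zEquiv U M f := (zEquiv_apply f).symm

/-- the map to the structure sheaf -/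
noncomputable def zUnit (U : X.Opens) : (Zf X).obj U ⟶ unitM X :=
  (zEquiv U (unitM X)).symm (toU 1)

lemma ap_zUnit_zOne (U : X.Opens) : ap (zUnit U) U (zOne U) = toU 1 := by
  rw [ap_zOne, zUnit, Equiv.apply_symm_apply]

lemma ap_zUnit_smul (U V : X.Opens) (h : V ≤ U) (r : Γ(X, V)) :
    ap (zUnit U) V (r • rs _ h (zOne U)) = toU r := by
  rw [ap_smul, ap_rs, ap_zUnit_zOne, rs_toU, map_one, smul_toU, mul_one]

/-- multiples of the tautological section are independent -/
lemma smul_zOne_injective (U V : X.Opens) (h : V ≤ U) {r s : Γ(X, V)}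
    (e : r • rs ((Zf X).obj U) h (zOne U) = s • rs ((Zf X).obj U) h (zOne U)) : r = s := by
  have := congrArg (ap (zUnit U) V) e
  rw [ap_zUnit_smul, ap_zUnit_smul] at this
  exact toU_injective this

/-- the sections of `Zf U` which are locally zero or multiples of the tautological section -/
noncomputable def zSub (U : X.Opens) : SubSh ((Zf X).obj U) where
  car V :=
    { carrier := {s | ∀ x ∈ V, ∃ (W : X.Opens) (h : W ≤ V), x ∈ W ∧
        (rs _ h s = 0 ∨ ∃ (hU : W ≤ U) (r : Γ(X, W)), rs _ h s = r • rs _ hU (zOne U))}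
      zero_mem' := fun x hx => ⟨V, le_rfl, hx, Or.inl (map_zero _)⟩
      add_mem' := by
        intro a b ha hb x hx
        obtain ⟨W, hW, hxW, h1⟩ := ha x hx
        obtain ⟨W', hW', hxW', h2⟩ := hb x hx
        refine ⟨W ⊓ W', inf_le_left.trans hW, ⟨hxW, hxW'⟩, ?_⟩
        have ea : rs ((Zf X).obj U) (inf_le_left.trans hW : W ⊓ W' ≤ V) a =
          rs _ (inf_le_left : W ⊓ W' ≤ W) (rs _ hW a) := by rw [rs_rs]
        have eb : rs ((Zf X).obj U) (inf_le_left.trans hW : W ⊓ W' ≤ V) b =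
          rs _ (inf_le_right : W ⊓ W' ≤ W') (rs _ hW' b) := by rw [rs_rs]
        rw [map_add, ea, eb]
        rcases h1 with h1 | ⟨hU, r, h1⟩
        · rcases h2 with h2 | ⟨hU', r', h2⟩
          · left
            rw [h1, h2, map_zero, map_zero, add_zero]
          · right
            refine ⟨inf_le_right.trans hU', rO inf_le_right r', ?_⟩
            rw [h1, h2, map_zero, zero_add, rs_smul, rs_rs]
        · rcases h2 with h2 | ⟨hU', r', h2⟩
          · right
            refine ⟨inf_le_left.trans hU, rO inf_le_left r, ?_⟩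
            rw [h1, h2, map_zero, add_zero, rs_smul, rs_rs]
          · right
            refine ⟨inf_le_left.trans hU, rO inf_le_left r + rO inf_le_right r', ?_⟩
            rw [h1, h2, rs_smul, rs_smul, rs_rs, rs_rs, add_smul]
      smul_mem' := by
        intro c a ha x hx
        obtain ⟨W, hW, hxW, h1⟩ := ha x hx
        refine ⟨W, hW, hxW, ?_⟩
        rcases h1 with h1 | ⟨hU, r, h1⟩
        · left
          rw [rs_smul, h1, smul_zero]
        · right
          exact ⟨hU, rO hW c * r, by rw [rs_smul, h1, smul_smul]⟩ }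
  res := by
    intro V V' h s hs x hx
    obtain ⟨W, hW, hxW, h1⟩ := hs x (h hx)
    refine ⟨W ⊓ V', inf_le_right, ⟨hxW, hx⟩, ?_⟩
    have e : rs _ (inf_le_right : W ⊓ V' ≤ V') (rs ((Zf X).obj U) h s) =
      rs _ (inf_le_left : W ⊓ V' ≤ W) (rs _ hW s) := by rw [rs_rs, rs_rs]
    rw [e]
    rcases h1 with h1 | ⟨hU, r, h1⟩
    · left
      rw [h1, map_zero]
    · right
      exact ⟨inf_le_left.trans hU, rO inf_le_left r, by rw [h1, rs_smul, rs_rs]⟩
  loc := by
    intro V s hs x hx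
    obtain ⟨V', hV', hxV', h1⟩ := hs x hx
    obtain ⟨W, hW, hxW, h2⟩ := h1 x hxV'
    rw [rs_rs] at h2
    exact ⟨W, hW.trans hV', hxW, h2⟩

lemma zOne_mem (U : X.Opens) : zOne U ∈ (zSub U).car U := fun x hx =>
  ⟨U, le_rfl, hx, Or.inr ⟨le_rfl, 1, by rw [one_smul]⟩⟩

/-- **every section of `Zf U` is locally zero or a multiple of the tautological section** -/
lemma zf_local (U : X.Opens) {V : X.Opens} (s : Γ((Zf X).obj U, V)) {x : X} (hx : x ∈ V) :
    ∃ (W : X.Opens) (h : W ≤ V), x ∈ W ∧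
      (rs _ h s = 0 ∨ ∃ (hU : W ≤ U) (r : Γ(X, W)), rs _ h s = r • rs _ hU (zOne U)) := by
  let σ : (Zf X).obj U ⟶ (zSub U).sh :=
    (zEquiv U (zSub U).sh).symm ((zSub U).mkS (zOne U) (zOne_mem U))
  have hσ : σ ≫ (zSub U).ι = 𝟙 _ := by
    apply (zEquiv U _).injective
    rw [zEquiv_ap]
    show ap (zSub U).ι U (zEquiv U _ σ) = zOne U
    rw [show zEquiv U _ σ = (zSub U).mkS (zOne U) (zOne_mem U) from Equiv.apply_symm_apply _ _,
      SubSh.ι_mkS]
  have hs : s ∈ (zSub U).car V := by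
    have : ap (zSub U).ι V (ap σ V s) = s := by
      rw [← ap_comp, hσ, ap_id]
    rw [← this]
    exact (zSub U).ι_mem _
  exact hs x hx

/-- sections of `Zf U` over `V ≤ U` are multiples of the tautological section -/
lemma zf_exists_smul (U : X.Opens) {V : X.Opens} (h : V ≤ U) (s : Γ((Zf X).obj U, V)) :
    ∃ r : Γ(X, V), s = r • rs _ h (zOne U) := by
  have key : ∀ x : V, ∃ (W : X.Opens) (hW : W ≤ V), x.1 ∈ W ∧
      ∃ r : Γ(X, W), rs _ hW s = r • rs _ (hW.trans h) (zOne U) := by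
    rintro ⟨x, hx⟩
    obtain ⟨W, hW, hxW, h1⟩ := zf_local U s hx
    refine ⟨W, hW, hxW, ?_⟩
    rcases h1 with h1 | ⟨_, r, h1⟩
    · exact ⟨0, by rw [h1, zero_smul]⟩
    · exact ⟨r, h1⟩
  choose W hW hxW r hr using key
  have hcov : V ≤ ⨆ x, W x := fun x hx => by
    rw [Opens.mem_iSup]
    exact ⟨⟨x, hx⟩, hxW _⟩
  obtain ⟨t, ht⟩ := exists_glue (unitM X) (V := V) (U := W) hW hcov (fun x => toU (r x)) (by
    intro x y
    rw [rs_toU, rs_toU]
    congr 1
    apply smul_zOne_injective U (W x ⊓ W y) (inf_le_left.trans ((hW x).trans h))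
    have e1 := congrArg (rs _ (inf_le_left : W x ⊓ W y ≤ W x)) (hr x)
    have e2 := congrArg (rs _ (inf_le_right : W x ⊓ W y ≤ W y)) (hr y)
    rw [rs_rs, rs_smul, rs_rs] at e1 e2
    rw [← e1, ← e2])
  refine ⟨ofU t, sec_ext _ (U := W) hW hcov fun x => ?_⟩
  rw [rs_smul, rs_rs, hr x]
  congr 1
  have := ht x
  rw [← toU_ofU t, rs_toU] at this
  exact (toU_injective this).symm

/-- `Zf U` is supported on `U` and quasi-coherent there -/
lemma QU.zf {U : X.Opens} (hU : IsAffineOpen U) : QU U ((Zf X).obj U) where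
  sup V s x hx hxU := by
    obtain ⟨W, hW, hxW, h1⟩ := zf_local U s hx
    rcases h1 with h1 | ⟨hWU, _⟩
    · exact ⟨W, hW, hxW, h1⟩
    · exact absurd (hWU hxW) hxU
  inj f s hs := by
    obtain ⟨r, rfl⟩ := zf_exists_smul U le_rfl s
    rw [rs_smul, rs_rs] at hs
    have h0 : rO (X.basicOpen_le f) r = 0 := by
      apply smul_zOne_injective U _ (X.basicOpen_le f)
      rw [zero_smul, hs]
    obtain ⟨n, hn⟩ := exists_pow_mul_eq_zero_of_res_basicOpen_eq_zero_of_isAffineOpen X hU r f h0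
    exact ⟨n, by rw [smul_smul, hn, zero_smul]⟩
  surj f t := by
    obtain ⟨r, rfl⟩ := zf_exists_smul U (X.basicOpen_le f) t
    obtain ⟨n, y, hy⟩ := exists_eq_pow_mul_of_isAffineOpen X U hU f r
    refine ⟨n, y • zOne U, ?_⟩
    have hy' : rO (X.basicOpen_le f) y = rO (X.basicOpen_le f) f ^ n * r := hy
    rw [rs_smul, hy', smul_smul]

/-- sections of `Zf U` over `V ≤ U` -/
noncomputable def zfSecEquiv (U : X.Opens) {V : X.Opens} (h : V ≤ U) :
    Γ(X, V) ≃ₗ[Γ(X, V)] Γ((Zf X).obj U, V) :=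
  LinearEquiv.ofBijective (LinearMap.toSpanSingleton Γ(X, V) _ (rs _ h (zOne U)))
    ⟨fun _ _ e => smul_zOne_injective U V h e, fun s => by
      obtain ⟨r, rfl⟩ := zf_exists_smul U h s
      exact ⟨r, rfl⟩⟩

end Fdim
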